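import Pool.Agent.H92ND2.Stm

/-!
Part BS of the `E₄` theorem: bases of the homogeneous cocycles modulo coboundaries.
-/

set_option autoImplicit false

namespace Pool.Agent.H92ND.Two

open Finset MvPolynomial Pool.Agent.W624.Stz Pool.Agent.Q171.ND3 Pool.Agent.Q171.ND3.St
  Pool.Agent.H92ND

/-- the space of homogeneous cocycles -/
noncomputable def ZC (q c : ℕ) : Submodule (ZMod 2) P where
  carrier := {x | Cy q c x}
  add_mem' := fun hx hy => Cy.add hx hy
  zero_mem' := Cy.zero q c
  smul_mem' := by
    intro a x hx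
    have : a = 0 ∨ a = 1 := by revert a; decide
    rcases this with h | h
    · rw [h, zero_smul]; exact Cy.zero q c
    · rw [h, one_smul]; exact hx

theorem mem_ZC {q c : ℕ} {x : P} : x ∈ ZC q c ↔ Cy q c x := Iff.rfl

theorem ZC_finite (q c : ℕ) : Finite (ZC q c) := (cy_finite q c).to_subtype

/-- a basis of the quotient gives what we want -/
theorem bs_of_basis (q c n : ℕ)
    (b : Module.Basis (Fin n) (ZMod 2) (ZC q c ⧸ (B q).submoduleOf (ZC q c)))
    (e : Fin n → ZC q c) (he : ∀ i, Submodule.Quotient.mk (e i) = b i) :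
    (∀ j, Cy q c (e j : P)) ∧
    (∀ y, Cy q c y → ∃ ε : Fin n → ZMod 2, y + ∑ j, ε j • (e j : P) ∈ B q) ∧
    ∀ ε : Fin n → ZMod 2, ∑ j, ε j • (e j : P) ∈ B q → ε = 0 := by
  have key : ∀ ε : Fin n → ZMod 2, (Submodule.Quotient.mk (∑ j, ε j • e j) :
      ZC q c ⧸ (B q).submoduleOf (ZC q c)) = ∑ j, ε j • b j := by
    intro ε
    have := map_sum ((B q).submoduleOf (ZC q c)).mkQ (fun j => ε j • e j) univ
    simp only [map_smul, Submodule.mkQ_apply, he] at this
    exact this
  refine ⟨fun j => (e j).2, fun y hy => ?_, fun ε hε => ?_⟩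
  · set Y : ZC q c := ⟨y, hy⟩ with hY
    refine ⟨fun i => b.repr (Submodule.Quotient.mk Y) i, ?_⟩
    have h1 := b.sum_repr (Submodule.Quotient.mk Y)
    have h2 : (Submodule.Quotient.mk Y : ZC q c ⧸ (B q).submoduleOf (ZC q c)) =
        Submodule.Quotient.mk (∑ j, b.repr (Submodule.Quotient.mk Y) j • e j) := by
      rw [key, h1]
    rw [Submodule.Quotient.eq] at h2
    have h3 : ((Y - ∑ j, b.repr (Submodule.Quotient.mk Y) j • e j : ZC q c) : P) ∈ B q := h2
    rw [Submodule.coe_sub, Submodule.coe_sum] at h3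
    simp only [Submodule.coe_smul] at h3
    rw [sub_eq_add_neg] at h3
    have h4 : -(∑ j, b.repr (Submodule.Quotient.mk Y) j • (e j : P)) =
        ∑ j, b.repr (Submodule.Quotient.mk Y) j • (e j : P) := by
      linear_combination (-1 : P) * P2 (∑ j, b.repr (Submodule.Quotient.mk Y) j • (e j : P))
    rwa [h4] at h3
  · have h1 : (Submodule.Quotient.mk (∑ j, ε j • e j) : ZC q c ⧸ (B q).submoduleOf (ZC q c)) = 0 := by
      rw [Submodule.Quotient.mk_eq_zero]
      change ((∑ j, ε j • e j : ZC q c) : P) ∈ B q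
      rw [Submodule.coe_sum]
      simpa only [Submodule.coe_smul] using hε
    rw [key] at h1
    have h2 := Fintype.linearIndependent_iff.mp b.linearIndependent ε h1
    exact funext h2

theorem bs : StBS := by
  intro q c
  have := ZC_finite q c
  let Q := ZC q c ⧸ (B q).submoduleOf (ZC q c)
  have hfin : Finite Q := Quotient.finite _
  have : Module.Finite (ZMod 2) Q := Module.Finite.of_finite
  have hsurj := Submodule.mkQ_surjective ((B q).submoduleOf (ZC q c))
  refine ⟨?_, ?_⟩
  · let b := Module.finBasis (ZMod 2) Q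
    choose e he using fun i => hsurj (b i)
    exact ⟨_, fun i => (e i : P), bs_of_basis q c _ b e he⟩
  · intro v hv hvB
    set V : ZC q c := ⟨v, hv⟩ with hV
    have hV0 : (Submodule.Quotient.mk V : Q) ≠ 0 := by
      intro h
      rw [Submodule.Quotient.mk_eq_zero] at h
      exact hvB h
    obtain ⟨N, hN⟩ := Submodule.exists_isCompl (Submodule.span (ZMod 2) {(Submodule.Quotient.mk V : Q)})
    let b0 := Module.finBasis (ZMod 2) N
    have hli : ∀ (r : ZMod 2), ∀ x ∈ N, r • (Submodule.Quotient.mk V : Q) + x = 0 → r = 0 := by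
      intro r x hx h
      have h1 : r • (Submodule.Quotient.mk V : Q) ∈ N := by
        have : r • (Submodule.Quotient.mk V : Q) = -x := eq_neg_of_add_eq_zero_left h
        rw [this]; exact N.neg_mem hx
      have h2 : r • (Submodule.Quotient.mk V : Q) ∈
          Submodule.span (ZMod 2) {(Submodule.Quotient.mk V : Q)} :=
        Submodule.smul_mem _ _ (Submodule.mem_span_singleton_self _)
      have h3 := Submodule.disjoint_def.mp hN.disjoint _ h2 h1
      rcases smul_eq_zero.mp h3 with h4 | h4
      · exact h4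
      · exact absurd h4 hV0
    have hsp : ∀ z : Q, ∃ r : ZMod 2, z + r • (Submodule.Quotient.mk V : Q) ∈ N := by
      intro z
      have hz : z ∈ Submodule.span (ZMod 2) {(Submodule.Quotient.mk V : Q)} ⊔ N := by
        rw [hN.sup_eq_top]; trivial
      obtain ⟨y, hy, w, hw, hyw⟩ := Submodule.mem_sup.mp hz
      obtain ⟨r, rfl⟩ := Submodule.mem_span_singleton.mp hy
      refine ⟨-r, ?_⟩
      rw [← hyw, neg_smul]
      have : r • (Submodule.Quotient.mk V : Q) + w + -(r • (Submodule.Quotient.mk V : Q)) = w := by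
        abel
      rw [this]; exact hw
    let b := Module.Basis.mkFinCons (Submodule.Quotient.mk V : Q) b0 hli hsp
    choose e he using fun i => hsurj (b i)
    have hb0 : b 0 = (Submodule.Quotient.mk V : Q) := by
      simp [b]
    let e' : Fin (Module.finrank (ZMod 2) N + 1) → ZC q c := fun i => if i = 0 then V else e i
    have he' : ∀ i, (Submodule.Quotient.mk (e' i) : Q) = b i := by
      intro i
      by_cases hi : i = 0
      · subst hi
        simp only [e', if_true]
        exact hb0.symm
      · simp only [e', if_neg hi]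
        exact he i
    obtain ⟨h1, h2, h3⟩ := bs_of_basis q c _ b e' he'
    exact ⟨_, fun i => (e' i : P), by simp [e', hV], h1, h2, h3⟩

end Pool.Agent.H92ND.Two
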