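import Pool.Agent.H92ND2.Stm

/-!
Part CA2: `cmb2` and `reidx2` for `k = 0`, `l = 1`.
-/

set_option autoImplicit false

namespace Pool.Agent.H92ND.Two

open Finset MvPolynomial Pool.Agent.W624.Stz Pool.Agent.Q171.ND3 Pool.Agent.Q171.ND3.St
  Pool.Agent.H92ND

theorem ca2_single {u : ℕ} (hu : ¬ Even u) : ev0 {u} = ∅ ∧ ev1 {u} = {u} := by
  have h : (({u} : Finset ℕ).filter (· < u)) = ∅ := by
    ext x; simp only [mem_filter, mem_singleton, notMem_empty, iff_false]; omega
  constructor
  · ext v
    rw [ev0, mem_filter, mem_singleton]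
    simp only [notMem_empty, iff_false]
    rintro ⟨rfl, h2⟩
    rw [h, card_empty, add_zero] at h2
    exact hu h2
  · ext v
    rw [ev1, mem_filter, mem_singleton]
    constructor
    · exact fun h => h.1
    · rintro rfl
      refine ⟨rfl, ?_⟩
      rw [h, card_empty, add_zero]
      exact hu

theorem ca2_single' {u : ℕ} (h1 : ev1 {u} = {u}) : ¬ Even u := by
  have h : (({u} : Finset ℕ).filter (· < u)) = ∅ := by
    ext x; simp only [mem_filter, mem_singleton, notMem_empty, iff_false]; omega
  have h2 : u ∈ ev1 {u} := by rw [h1]; exact mem_singleton_self u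
  rw [ev1, mem_filter, h, card_empty, add_zero] at h2
  exact h2.2

theorem ca2_empty (a : P) : faces ∅ a = a := by simp [faces]

theorem ca2_T01 (p : ℕ) (a : P) :
    ∑ U ∈ (range (p + 1)).powerset with (ev0 U).card = 0 ∧ (ev1 U).card = 1,
      faces (ev0 U) a * faces (ev1 U) a = a * al p a := by
  rw [al, mul_sum]
  symm
  refine sum_bij (fun u _ => ({u} : Finset ℕ)) ?_ ?_ ?_ ?_
  · intro u hu
    simp only [mem_filter, mem_range, mem_powerset] at hu ⊢
    obtain ⟨e0, e1⟩ := ca2_single hu.2
    rw [e0, e1]
    refine ⟨?_, card_empty, card_singleton u⟩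
    intro v hv
    rw [mem_singleton] at hv
    rw [mem_range]
    omega
  · intro u _ v _ h
    exact singleton_injective h
  · intro U hU
    simp only [mem_filter, mem_powerset] at hU
    obtain ⟨h1, h2, h3⟩ := hU
    have h4 : ev0 U = ∅ := card_eq_zero.mp h2
    have h5 : ev1 U = U := by
      have := ev0_union U
      rwa [h4, empty_union] at this
    rw [h5] at h3
    obtain ⟨u, rfl⟩ := card_eq_one.mp h3
    refine ⟨u, ?_, rfl⟩
    rw [mem_filter]
    exact ⟨h1 (mem_singleton_self u), ca2_single' h5⟩
  · intro u hu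
    rw [mem_filter] at hu
    obtain ⟨e0, e1⟩ := ca2_single hu.2
    rw [e0, e1, ca2_empty, faces_single]

theorem ca2 : StCA2 := by
  intro p a ha hd
  have h1 := cmb2 (fun a : P => p2_add_self a) (fun A => faces A a) (fun A => faces A a) 0 1 (p + 2)
  have h2 := reidx2 (fun A B => faces A a * faces B a) 0 1 (p + 1)
  rw [show p + 1 + 1 = p + 2 by omega] at h2
  rw [← h2] at h1
  have h3 : ∑ w ∈ range (p + 2), ∑ U ∈ (range (p + 1)).powerset with
      (ev0 U).card = 0 ∧ (ev1 U).card = 1,
      faces (insert w (sh w (ev0 U))) a * faces (insert w (sh w (ev1 U))) a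
      = ∑ w ∈ range (p + 2), face w a * face w (al p a) := by
    refine sum_congr rfl fun w _ => ?_
    rw [← map_mul, ← ca2_T01, map_sum]
    exact sum_congr rfl fun U _ => by rw [map_mul, face_faces, face_faces]
  rw [h3] at h1
  have h4 : T2 (p + 2) (0 + 1) 1 (fun A B => faces A a * ∑ w ∈ range (p + 2) \ B,
      faces (insert w B) a) = sqC 1 p a := by
    rw [sqC_cp, cp, T2, T2]
    refine sum_congr rfl fun W hW => ?_
    rw [mem_filter, mem_powerset] at hW
    congr 1
    have hB : ev1 W ⊆ range (p + 2) := fun u hu => hW.1 (mem_ev1.mp hu).1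
    have h5 := sum_faces' (s := p) (k := 1) a (B := ev1 W) (fun u hu => by
      have := mem_range.mp (hB hu)
      rw [mem_range]
      omega) hW.2.2
    rw [hd, faces_zero] at h5
    have h6 : range (p + 1 + 2) \ ev1 W = insert (p + 2) (range (p + 2) \ ev1 W) := by
      ext u
      simp only [mem_sdiff, mem_range, mem_insert]
      constructor
      · rintro ⟨h1, h2⟩
        by_cases h : u = p + 2
        · exact Or.inl h
        · exact Or.inr ⟨by omega, h2⟩
      · rintro (h | h)
        · refine ⟨by omega, fun h' => ?_⟩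
          have := mem_range.mp (hB h')
          omega
        · exact ⟨by omega, h.2⟩
    rw [h6, sum_insert (by simp), faces_insert (fun b hb => mem_range.mp (hB hb))] at h5
    have h7 : face (p + 2) (faces (ev1 W) a) = faces (ev1 W) a := by
      have h8 := C_faces (ev1 W) ha
      rw [hW.2.2] at h8
      exact face_of_C h8 (by omega)
    rw [h7] at h5
    have h9 := p2_add_self (faces (ev1 W) a)
    linear_combination h5 - h9
  have h5 : T2 (p + 2) 0 (1 + 1) (fun A B => (∑ w ∈ range (p + 2) \ A,
      faces (insert w A) a) * faces B a) = 0 := by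
    rw [T2]
    refine sum_eq_zero fun W hW => ?_
    rw [mem_filter, mem_powerset] at hW
    have h6 := sum_faces' (s := p) (k := 0) a (B := ev0 W)
      (fun u hu => hW.1 (mem_ev0.mp hu).1) hW.2.1
    rw [hd, faces_zero] at h6
    rw [show p + 2 = p + 0 + 2 by omega, h6, zero_mul]
  rw [h4, h5] at h1
  rw [T3]
  have h6 := p2_add_self (sqC 1 p a)
  simp only [Nat.zero_add, Nat.reduceAdd] at h1
  linear_combination (-1 : P) * h1 - h6

end Pool.Agent.H92ND.Two
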