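import Pool.Agent.H92ND2.Stm

/-!
Part CA3: the sum of `sum_faces'` over the odd `j`.
-/

set_option autoImplicit false

namespace Pool.Agent.H92ND.Two

open Finset MvPolynomial Pool.Agent.W624.Stz Pool.Agent.Q171.ND3 Pool.Agent.Q171.ND3.St
  Pool.Agent.H92ND

theorem ca3_pair0 {i j : ℕ} (h : i < j) (hi : Even i) (hj : ¬ Even j) :
    ev0 {i, j} = {i, j} ∧ ev1 {i, j} = ∅ := by
  constructor
  · ext u
    rw [mem_ev0_pair h, mem_insert, mem_singleton]
    simp [hi, hj]
  · ext u
    rw [mem_ev1_pair h]
    simp [hi, hj]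

theorem ca3_pair1 {i j : ℕ} (h : i < j) (hi : ¬ Even i) (hj : Even j) :
    ev0 {i, j} = ∅ ∧ ev1 {i, j} = {i, j} := by
  constructor
  · ext u
    rw [mem_ev0_pair h]
    simp [hi, hj]
  · ext u
    rw [mem_ev1_pair h, mem_insert, mem_singleton]
    simp [hi, hj]

/-- sets with two elements -/
theorem ca3_two {W : Finset ℕ} (h : W.card = 2) : ∃ i j, i < j ∧ W = {i, j} := by
  obtain ⟨a, b, hab, rfl⟩ := card_eq_two.mp h
  rcases lt_or_gt_of_ne hab with h | h
  · exact ⟨a, b, h, rfl⟩
  · exact ⟨b, a, h, Finset.pair_comm _ _⟩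

theorem ca3_sub {N i j : ℕ} : ({i, j} : Finset ℕ) ⊆ range N ↔ i < N ∧ j < N := by
  constructor
  · intro h
    exact ⟨mem_range.mp (h (by simp)), mem_range.mp (h (by simp))⟩
  · rintro ⟨h1, h2⟩ u hu
    simp only [mem_insert, mem_singleton] at hu
    rw [mem_range]
    omega

theorem ca3_inj {i j i' j' : ℕ} (h : i < j) (h' : i' < j')
    (he : ({i, j} : Finset ℕ) = {i', j'}) : i = i' ∧ j = j' := by
  have e1 : i ∈ ({i', j'} : Finset ℕ) := he ▸ mem_insert_self _ _
  have e2 : j ∈ ({i', j'} : Finset ℕ) := he ▸ (mem_insert_of_mem (mem_singleton_self _))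
  simp only [mem_insert, mem_singleton] at e1 e2
  omega

theorem ca3_pairs (f : Finset ℕ → P) (N : ℕ) :
    T2 N 2 0 (fun A _ => f A) + T2 N 0 2 (fun _ B => f B)
    = ∑ j ∈ (range N).filter (fun u => ¬ Even u), ∑ w ∈ (range N).filter (fun u => Even u),
        f {j, w} := by
  rw [← sum_product' ((range N).filter (fun u => ¬ Even u)) ((range N).filter (fun u => Even u))
    (fun j w => f {j, w}), ← sum_filter_add_sum_filter_not _ (fun p : ℕ × ℕ => p.2 < p.1)]
  congr 1
  · rw [T2]
    symm
    refine sum_bij (fun p _ => ({p.2, p.1} : Finset ℕ)) ?_ ?_ ?_ ?_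
    · rintro ⟨j, w⟩ hp
      simp only [mem_filter, mem_product, mem_range, mem_powerset] at hp ⊢
      obtain ⟨⟨⟨hj, hjo⟩, hw, hwe⟩, hlt⟩ := hp
      obtain ⟨e0, e1⟩ := ca3_pair0 hlt hwe hjo
      rw [e0, e1]
      refine ⟨ca3_sub.mpr ⟨hw, hj⟩, ?_, card_empty⟩
      rw [card_pair hlt.ne]
    · rintro ⟨j, w⟩ hp ⟨j', w'⟩ hp' he
      simp only [mem_filter] at hp hp'
      obtain ⟨h1, h2⟩ := ca3_inj hp.2 hp'.2 he
      ext <;> simp only <;> assumption
    · intro W hW
      simp only [mem_filter, mem_powerset] at hW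
      obtain ⟨hW1, hW2, hW3⟩ := hW
      have hW4 : ev1 W = ∅ := card_eq_zero.mp hW3
      have hW5 : ev0 W = W := by
        have := ev0_union W
        rwa [hW4, union_empty] at this
      rw [hW5] at hW2
      obtain ⟨i, j, hij, rfl⟩ := ca3_two hW2
      have h1 := (mem_ev0_pair hij (u := i)).mp (by rw [hW5]; simp)
      have h2 := (mem_ev0_pair hij (u := j)).mp (by rw [hW5]; simp)
      have h3 := ca3_sub.mp hW1
      have h4 : Even i := by
        rcases h1 with h | h
        · exact h.2
        · omega
      have h5 : ¬ Even j := by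
        rcases h2 with h | h
        · omega
        · exact h.2
      refine ⟨(j, i), ?_, rfl⟩
      simp only [mem_filter, mem_product, mem_range]
      exact ⟨⟨⟨h3.2, h5⟩, h3.1, h4⟩, hij⟩
    · rintro ⟨j, w⟩ hp
      simp only [mem_filter, mem_product, mem_range] at hp
      obtain ⟨⟨⟨hj, hjo⟩, hw, hwe⟩, hlt⟩ := hp
      obtain ⟨e0, e1⟩ := ca3_pair0 hlt hwe hjo
      simp only
      rw [e0, Finset.pair_comm]
  · rw [T2]
    symm
    refine sum_bij (fun p _ => ({p.1, p.2} : Finset ℕ)) ?_ ?_ ?_ ?_
    · rintro ⟨j, w⟩ hp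
      simp only [mem_filter, mem_product, mem_range, mem_powerset] at hp ⊢
      obtain ⟨⟨⟨hj, hjo⟩, hw, hwe⟩, hle⟩ := hp
      have hlt : j < w := by
        rcases lt_trichotomy j w with h | h | h
        · exact h
        · exact absurd (h ▸ hwe) hjo
        · exact absurd h hle
      obtain ⟨e0, e1⟩ := ca3_pair1 hlt hjo hwe
      rw [e0, e1]
      refine ⟨ca3_sub.mpr ⟨hj, hw⟩, card_empty, ?_⟩
      rw [card_pair hlt.ne]
    · rintro ⟨j, w⟩ hp ⟨j', w'⟩ hp' he
      simp only [mem_filter, mem_product, mem_range] at hp hp'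
      obtain ⟨⟨⟨hj, hjo⟩, hw, hwe⟩, hle⟩ := hp
      obtain ⟨⟨⟨hj', hjo'⟩, hw', hwe'⟩, hle'⟩ := hp'
      have hlt : j < w := by
        rcases lt_trichotomy j w with h | h | h
        · exact h
        · exact absurd (h ▸ hwe) hjo
        · exact absurd h hle
      have hlt' : j' < w' := by
        rcases lt_trichotomy j' w' with h | h | h
        · exact h
        · exact absurd (h ▸ hwe') hjo'
        · exact absurd h hle'
      obtain ⟨h1, h2⟩ := ca3_inj hlt hlt' he
      ext <;> simp only <;> assumption
    · intro W hW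
      simp only [mem_filter, mem_powerset] at hW
      obtain ⟨hW1, hW2, hW3⟩ := hW
      have hW4 : ev0 W = ∅ := card_eq_zero.mp hW2
      have hW5 : ev1 W = W := by
        have := ev0_union W
        rwa [hW4, empty_union] at this
      rw [hW5] at hW3
      obtain ⟨i, j, hij, rfl⟩ := ca3_two hW3
      have h1 := (mem_ev1_pair hij (u := i)).mp (by rw [hW5]; simp)
      have h2 := (mem_ev1_pair hij (u := j)).mp (by rw [hW5]; simp)
      have h3 := ca3_sub.mp hW1
      have h4 : ¬ Even i := by
        rcases h1 with h | h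
        · exact h.2
        · omega
      have h5 : Even j := by
        rcases h2 with h | h
        · omega
        · exact h.2
      refine ⟨(i, j), ?_, rfl⟩
      simp only [mem_filter, mem_product, mem_range]
      exact ⟨⟨⟨h3.1, h4⟩, h3.2, h5⟩, by omega⟩
    · rintro ⟨j, w⟩ hp
      simp only [mem_filter, mem_product, mem_range] at hp
      obtain ⟨⟨⟨hj, hjo⟩, hw, hwe⟩, hle⟩ := hp
      have hlt : j < w := by
        rcases lt_trichotomy j w with h | h | h
        · exact h
        · exact absurd (h ▸ hwe) hjo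
        · exact absurd h hle
      obtain ⟨e0, e1⟩ := ca3_pair1 hlt hjo hwe
      simp only
      rw [e1]

/-- pairs of two odd numbers cancel -/
theorem ca3_odd (f : Finset ℕ → P) (S : Finset ℕ) :
    ∑ j ∈ S, ∑ w ∈ S.erase j, f {j, w} = 0 := by
  rw [sum_sigma']
  refine sum_involution (fun p _ => ⟨p.2, p.1⟩) ?_ ?_ ?_ ?_
  · rintro ⟨b, w⟩ _
    simp only
    rw [Finset.pair_comm w b]
    exact p2_add_self _
  · rintro ⟨b, w⟩ h _ h2
    simp only [mem_sigma, mem_erase] at h
    simp only [Sigma.mk.injEq] at h2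
    exact h.2.1 h2.1
  · rintro ⟨b, w⟩ h
    simp only [mem_sigma, mem_erase] at h ⊢
    exact ⟨h.2.2, fun e => h.2.1 e.symm, h.1⟩
  · rintro ⟨b, w⟩ _
    rfl

theorem ca3_faces {j m : ℕ} (h : j < m) (a : P) : faces {j, m} a = face m (face j a) := by
  rw [Finset.pair_comm, ← faces_single j a]
  exact faces_insert (fun b hb => by rw [mem_singleton] at hb; omega) a

theorem ca3 : StCA3 := by
  intro p a ha hd
  have key : ∀ j ∈ (range (p + 1)).filter (fun u => ¬ Even u),
      ∑ w ∈ ((range (p + 1)).filter (fun u => ¬ Even u)).erase j, faces {j, w} a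
        + ∑ w ∈ (range (p + 1)).filter (fun u => Even u), faces {j, w} a
        + (face (p + 1) (face j a) + face j a) = 0 := by
    intro j hj
    rw [mem_filter, mem_range] at hj
    have h1 := sum_faces' (s := p) (k := 1) a (B := {j}) (by
      intro u hu
      rw [mem_singleton] at hu
      rw [mem_range]
      omega) (card_singleton j)
    rw [hd, faces_zero] at h1
    have h2 : range (p + 1 + 2) \ {j} = insert (p + 2) (insert (p + 1)
        ((((range (p + 1)).filter (fun u => ¬ Even u)).erase j) ∪
          (range (p + 1)).filter (fun u => Even u))) := by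
      ext u
      simp only [mem_sdiff, mem_range, mem_singleton, mem_insert, mem_union, mem_erase, mem_filter]
      constructor
      · rintro ⟨h1, h2⟩
        by_cases hu : Even u
        · rcases lt_trichotomy u (p + 1) with h | h | h
          · exact Or.inr (Or.inr (Or.inr ⟨h, hu⟩))
          · exact Or.inr (Or.inl h)
          · left; omega
        · rcases lt_trichotomy u (p + 1) with h | h | h
          · exact Or.inr (Or.inr (Or.inl ⟨h2, h, hu⟩))
          · exact Or.inr (Or.inl h)
          · left; omega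
      · rintro (h | h | h | h)
        · omega
        · omega
        · exact ⟨by omega, h.1⟩
        · refine ⟨by omega, fun e => ?_⟩
          exact hj.2 (e ▸ h.2)
    rw [h2, sum_insert, sum_insert, sum_union] at h1
    · have e1 : faces (insert (p + 2) {j}) a = face j a := by
        rw [show (insert (p + 2) {j} : Finset ℕ) = {j, p + 2} from Finset.pair_comm _ _,
          ca3_faces (by omega)]
        exact face_of_C (C_face j ha) (by omega)
      have e2 : faces (insert (p + 1) {j}) a = face (p + 1) (face j a) := by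
        rw [show (insert (p + 1) {j} : Finset ℕ) = {j, p + 1} from Finset.pair_comm _ _,
          ca3_faces (by omega)]
      have e3 : ∀ S : Finset ℕ, ∑ w ∈ S, faces (insert w {j}) a = ∑ w ∈ S, faces {j, w} a := by
        intro S
        refine sum_congr rfl fun w _ => ?_
        rw [show (insert w {j} : Finset ℕ) = {j, w} from Finset.pair_comm _ _]
      rw [e1, e2, e3, e3] at h1
      rw [← h1]
      ring
    · rw [disjoint_left]
      intro u hu hu'
      simp only [mem_erase, mem_filter] at hu hu'
      exact hu.2.2 hu'.2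
    · simp only [mem_union, mem_erase, mem_filter, mem_range]
      omega
    · simp only [mem_insert, mem_union, mem_erase, mem_filter, mem_range]
      omega
  have h1 := sum_congr rfl key
  have g1 : ∑ j ∈ (range (p + 1)).filter (fun u => ¬ Even u),
      ∑ w ∈ ((range (p + 1)).filter (fun u => ¬ Even u)).erase j, faces {j, w} a = 0 :=
    ca3_odd (fun A => faces A a) _
  have g2 : ∑ j ∈ (range (p + 1)).filter (fun u => ¬ Even u),
      ∑ w ∈ (range (p + 1)).filter (fun u => Even u), faces {j, w} a
      = T2 (p + 1) 2 0 (fun A _ => faces A a) + T2 (p + 1) 0 2 (fun _ B => faces B a) :=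
    (ca3_pairs (fun A => faces A a) (p + 1)).symm
  rw [sum_const_zero, sum_add_distrib, sum_add_distrib, g1, zero_add, sum_add_distrib, g2] at h1
  have h2 : ∑ j ∈ (range (p + 1)).filter (fun u => ¬ Even u), face (p + 1) (face j a)
      = face (p + 1) (al p a) := by
    rw [al, map_sum]
  have h3 : ∑ j ∈ (range (p + 1)).filter (fun u => ¬ Even u), face j a = al p a := rfl
  rw [h2, h3] at h1
  rw [R2]
  have h4 := p2_add_self (face (p + 1) (al p a) + al p a)
  linear_combination h1 - h4

end Pool.Agent.H92ND.Two
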