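import Pool.Agent.H92ND2.Ca1

/-!
Part CA4: the differential of `a α h_m h_m`.
-/

set_option autoImplicit false
set_option linter.unusedSectionVars false

namespace Pool.Agent.H92ND.Two

open Finset MvPolynomial Pool.Agent.W624.Stz Pool.Agent.Q171.ND3 Pool.Agent.Q171.ND3.St
  Pool.Agent.H92ND

theorem al_C {p : ℕ} {a : P} (ha : a ∈ St.C p) : al p a ∈ St.C (p + 1) :=
  Submodule.sum_mem _ fun u _ => C_face u ha

theorem ca4 : StCA4 := by
  intro p m a ha
  have hal := al_C ha
  have h1 : ∀ w ∈ range (p + 1), face w (a * al p a * (hx p m * hx (p + 1) m))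
      = face w a * face w (al p a) * (hx (p + 1) m * hx (p + 2) m) := by
    intro w hw
    rw [mem_range] at hw
    rw [map_mul, map_mul, map_mul, face_hx_lo (by omega), face_hx_lo (by omega)]
  have h2 : face (p + 1) (a * al p a * (hx p m * hx (p + 1) m))
      = a * face (p + 1) (al p a) * ((hx p m + hx (p + 1) m) * hx (p + 2) m) := by
    rw [map_mul, map_mul, map_mul, face_of_C ha (by omega), face_hx_mid, face_hx_lo (by omega)]
  have h3 : face (p + 2) (a * al p a * (hx p m * hx (p + 1) m))
      = a * al p a * (hx p m * (hx (p + 1) m + hx (p + 2) m)) := by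
    rw [map_mul, map_mul, map_mul, face_of_C ha (by omega), face_of_C hal (by omega),
      face_hx_hi (by omega), face_hx_mid]
  have h4 : face (p + 3) (a * al p a * (hx p m * hx (p + 1) m))
      = a * al p a * (hx p m * hx (p + 1) m) := by
    rw [map_mul, map_mul, map_mul, face_of_C ha (by omega), face_of_C hal (by omega),
      face_hx_hi (by omega), face_hx_hi (by omega)]
  rw [d, LinearMap.sum_apply]
  simp only [AlgHom.toLinearMap_apply]
  rw [show p + 2 + 2 = p + 1 + 1 + 1 + 1 by omega, sum_range_succ, sum_range_succ, sum_range_succ,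
    sum_congr rfl h1, ← sum_mul, h2]
  rw [show p + 1 + 1 + 1 = p + 3 by omega, show p + 1 + 1 = p + 2 by omega, h3, h4,
    show p + 2 = p + 1 + 1 by omega, sum_range_succ (fun w => face w a * face w (al p a)) (p + 1),
    face_of_C ha (by omega)]
  linear_combination P2 (a * al p a * (hx p m * hx (p + 1) m))

end Pool.Agent.H92ND.Two
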