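import Pool.Agent.H92ND2.Ca1
import Pool.Agent.H92ND2.Ca2
import Pool.Agent.H92ND2.Ca3
import Pool.Agent.H92ND2.Ca4

/-!
The Cartan formula for `Sq² (a h_m)`.
-/

set_option autoImplicit false

namespace Pool.Agent.H92ND.Two

open Finset MvPolynomial Pool.Agent.W624.Stz Pool.Agent.Q171.ND3 Pool.Agent.Q171.ND3.St
  Pool.Agent.H92ND

theorem C_hx {a s m : ℕ} (h : a < s) : hx a m ∈ St.C s := C_pow (C_X 0 h) _

theorem C_al {p : ℕ} {a : P} (ha : a ∈ St.C p) : al p a ∈ St.C (p + 1) :=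
  Submodule.sum_mem _ fun u _ => C_face u ha

/-- the Cartan formula for `Sq²` -/
theorem ca : StCA := by
  intro p m a ha hda
  have h1 := ca1 p m a ha
  have h2 := ca2 p a ha hda
  have h3 := ca3 p a ha hda
  have h4 := ca4 p m a ha
  have h5 : hx (p + 2) (m + 1) = hx (p + 2) m ^ 2 := by rw [hx, hx, ← pow_mul, ← pow_succ]
  have e : sqC 2 (p + 1) (a * hx p m)
      + (sqC 2 p a * hx (p + 2) (m + 1) + sqC 1 p a * (hx (p + 1) m * hx (p + 2) m))
      = d (p + 2) (a * al p a * (hx p m * hx (p + 1) m)) := by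
    rw [h1, h2, h3, h4, h5]
    linear_combination P2 (sqC 2 p a * hx (p + 2) m ^ 2)
      + P2 (sqC 1 p a * (hx (p + 1) m * hx (p + 2) m))
  rw [e]
  refine ⟨_, ?_, rfl⟩
  exact C_mul (C_mul (C_mono (by omega) ha) (C_mono (by omega) (C_al ha)))
    (C_mul (C_hx (by omega)) (C_hx (by omega)))

end Pool.Agent.H92ND.Two
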