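import Pool.Agent.H92ND2.Stm

/-!
Part CA1: `Sq²` of a product with `h_m` on the cochain level.
-/

set_option autoImplicit false
set_option linter.unusedSectionVars false

namespace Pool.Agent.H92ND.Two

open Finset MvPolynomial Pool.Agent.W624.Stz Pool.Agent.Q171.ND3 Pool.Agent.Q171.ND3.St
  Pool.Agent.H92ND

section ring

variable {R : Type*} [CommRing R]

theorem filt_insert_top {N u : ℕ} {W : Finset ℕ} (hu : u ≤ N) :
    (insert N W).filter (· < u) = W.filter (· < u) := by
  rw [filter_insert, if_neg (by omega)]

theorem filt_top {N : ℕ} {W : Finset ℕ} (hW : W ⊆ range N) : W.filter (· < N) = W :=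
  filter_true_of_mem fun _ hx => mem_range.mp (hW hx)

theorem ev0_insert_top {N : ℕ} {W : Finset ℕ} (hW : W ⊆ range N) :
    ev0 (insert N W) = if Even (N + W.card) then insert N (ev0 W) else ev0 W := by
  have hN : N ∉ W := fun h => lt_irrefl _ (mem_range.mp (hW h))
  ext u
  rw [ev0, mem_filter, mem_insert]
  split_ifs with he
  · rw [mem_insert, ev0, mem_filter]
    constructor
    · rintro ⟨rfl | h1, h2⟩
      · exact Or.inl rfl
      · have := mem_range.mp (hW h1)
        rw [filt_insert_top this.le] at h2
        exact Or.inr ⟨h1, h2⟩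
    · rintro (rfl | ⟨h1, h2⟩)
      · rw [filt_insert_top le_rfl, filt_top hW]
        exact ⟨Or.inl rfl, he⟩
      · have := mem_range.mp (hW h1)
        rw [filt_insert_top this.le]
        exact ⟨Or.inr h1, h2⟩
  · rw [ev0, mem_filter]
    constructor
    · rintro ⟨rfl | h1, h2⟩
      · rw [filt_insert_top le_rfl, filt_top hW] at h2
        exact absurd h2 he
      · have := mem_range.mp (hW h1)
        rw [filt_insert_top this.le] at h2
        exact ⟨h1, h2⟩
    · rintro ⟨h1, h2⟩
      have := mem_range.mp (hW h1)
      rw [filt_insert_top this.le]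
      exact ⟨Or.inr h1, h2⟩

theorem ev1_insert_top {N : ℕ} {W : Finset ℕ} (hW : W ⊆ range N) :
    ev1 (insert N W) = if Even (N + W.card) then ev1 W else insert N (ev1 W) := by
  ext u
  rw [ev1, mem_filter, mem_insert]
  split_ifs with he
  · rw [ev1, mem_filter]
    constructor
    · rintro ⟨rfl | h1, h2⟩
      · rw [filt_insert_top le_rfl, filt_top hW] at h2
        exact absurd he h2
      · have := mem_range.mp (hW h1)
        rw [filt_insert_top this.le] at h2
        exact ⟨h1, h2⟩
    · rintro ⟨h1, h2⟩
      have := mem_range.mp (hW h1)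
      rw [filt_insert_top this.le]
      exact ⟨Or.inr h1, h2⟩
  · rw [mem_insert, ev1, mem_filter]
    constructor
    · rintro ⟨rfl | h1, h2⟩
      · exact Or.inl rfl
      · have := mem_range.mp (hW h1)
        rw [filt_insert_top this.le] at h2
        exact Or.inr ⟨h1, h2⟩
    · rintro (rfl | ⟨h1, h2⟩)
      · rw [filt_insert_top le_rfl, filt_top hW]
        exact ⟨Or.inl rfl, he⟩
      · have := mem_range.mp (hW h1)
        rw [filt_insert_top this.le]
        exact ⟨Or.inr h1, h2⟩

theorem ev0_sub (W : Finset ℕ) : ev0 W ⊆ W := filter_subset _ _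

theorem ev1_sub (W : Finset ℕ) : ev1 W ⊆ W := filter_subset _ _

theorem card_ev (W : Finset ℕ) : W.card = (ev0 W).card + (ev1 W).card := by
  have := card_union_of_disjoint (ev0_disj W)
  rwa [ev0_union] at this

/-- the recursion for `T2`: both sizes positive -/
theorem T2_succ (N k l : ℕ) (F : Finset ℕ → Finset ℕ → R) :
    T2 (N + 1) (k + 1) (l + 1) F = T2 N (k + 1) (l + 1) F
      + if Even (N + (k + l + 1)) then T2 N k (l + 1) (fun A B => F (insert N A) B)
        else T2 N (k + 1) l (fun A B => F A (insert N B)) := by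
  simp only [T2]
  rw [range_add_one, sum_filter, sum_powerset_insert notMem_range_self, ← sum_filter]
  congr 1
  split_ifs with he
  · rw [sum_filter]
    refine sum_congr rfl fun W hW => ?_
    rw [mem_powerset] at hW
    have hN0 : N ∉ ev0 W := fun h => lt_irrefl _ (mem_range.mp (hW (ev0_sub W h)))
    have hN1 : N ∉ ev1 W := fun h => lt_irrefl _ (mem_range.mp (hW (ev1_sub W h)))
    have hc := card_ev W
    rw [ev0_insert_top hW, ev1_insert_top hW]
    by_cases hp : Even (N + W.card)
    · rw [if_pos hp, if_pos hp, card_insert_of_notMem hN0]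
      refine if_congr ?_ rfl rfl
      omega
    · rw [if_neg hp, if_neg hp, card_insert_of_notMem hN1, if_neg, if_neg]
      · rintro ⟨h1, h2⟩
        apply hp
        rw [hc, h1, h2]
        rwa [show k + (l + 1) = k + l + 1 by omega]
      · rintro ⟨h1, h2⟩
        apply hp
        rw [hc, h1, show (ev1 W).card = l by omega]
        rwa [show k + 1 + l = k + l + 1 by omega]
  · rw [sum_filter]
    refine sum_congr rfl fun W hW => ?_
    rw [mem_powerset] at hW
    have hN0 : N ∉ ev0 W := fun h => lt_irrefl _ (mem_range.mp (hW (ev0_sub W h)))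
    have hN1 : N ∉ ev1 W := fun h => lt_irrefl _ (mem_range.mp (hW (ev1_sub W h)))
    have hc := card_ev W
    rw [ev0_insert_top hW, ev1_insert_top hW]
    by_cases hp : Even (N + W.card)
    · rw [if_pos hp, if_pos hp, card_insert_of_notMem hN0, if_neg, if_neg]
      · rintro ⟨h1, h2⟩
        apply he
        rw [hc, h1, h2] at hp
        rwa [show k + 1 + l = k + l + 1 by omega] at hp
      · rintro ⟨h1, h2⟩
        apply he
        rw [hc, h2, show (ev0 W).card = k by omega] at hp
        rwa [show k + (l + 1) = k + l + 1 by omega] at hp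
    · rw [if_neg hp, if_neg hp, card_insert_of_notMem hN1]
      refine if_congr ?_ rfl rfl
      omega

/-- the recursion for `T2`: second size zero -/
theorem T2_succ_zero (N k : ℕ) (F : Finset ℕ → Finset ℕ → R) :
    T2 (N + 1) (k + 1) 0 F = T2 N (k + 1) 0 F
      + if Even (N + k) then T2 N k 0 (fun A B => F (insert N A) B) else 0 := by
  simp only [T2]
  rw [range_add_one, sum_filter, sum_powerset_insert notMem_range_self, ← sum_filter]
  congr 1
  split_ifs with he
  · rw [sum_filter]
    refine sum_congr rfl fun W hW => ?_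
    rw [mem_powerset] at hW
    have hN0 : N ∉ ev0 W := fun h => lt_irrefl _ (mem_range.mp (hW (ev0_sub W h)))
    have hN1 : N ∉ ev1 W := fun h => lt_irrefl _ (mem_range.mp (hW (ev1_sub W h)))
    have hc := card_ev W
    rw [ev0_insert_top hW, ev1_insert_top hW]
    by_cases hp : Even (N + W.card)
    · rw [if_pos hp, if_pos hp, card_insert_of_notMem hN0]
      refine if_congr ?_ rfl rfl
      omega
    · rw [if_neg hp, if_neg hp, card_insert_of_notMem hN1, if_neg, if_neg]
      · rintro ⟨h1, h2⟩
        apply hp
        rw [hc, h1, h2]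
        exact he
      · rintro ⟨h1, h2⟩
        omega
  · refine sum_eq_zero fun W hW => ?_
    rw [mem_powerset] at hW
    have hN0 : N ∉ ev0 W := fun h => lt_irrefl _ (mem_range.mp (hW (ev0_sub W h)))
    have hN1 : N ∉ ev1 W := fun h => lt_irrefl _ (mem_range.mp (hW (ev1_sub W h)))
    have hc := card_ev W
    rw [ev0_insert_top hW, ev1_insert_top hW]
    by_cases hp : Even (N + W.card)
    · rw [if_pos hp, if_pos hp, card_insert_of_notMem hN0, if_neg]
      rintro ⟨h1, h2⟩
      apply he
      rw [hc, h2, show (ev0 W).card = k by omega] at hp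
      exact hp
    · rw [if_neg hp, if_neg hp, card_insert_of_notMem hN1, if_neg]
      rintro ⟨h1, h2⟩
      omega

/-- the recursion for `T2`: first size zero -/
theorem T2_zero_succ (N l : ℕ) (F : Finset ℕ → Finset ℕ → R) :
    T2 (N + 1) 0 (l + 1) F = T2 N 0 (l + 1) F
      + if Even (N + l) then 0 else T2 N 0 l (fun A B => F A (insert N B)) := by
  simp only [T2]
  rw [range_add_one, sum_filter, sum_powerset_insert notMem_range_self, ← sum_filter]
  congr 1
  split_ifs with he
  · refine sum_eq_zero fun W hW => ?_
    rw [mem_powerset] at hW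
    have hN0 : N ∉ ev0 W := fun h => lt_irrefl _ (mem_range.mp (hW (ev0_sub W h)))
    have hN1 : N ∉ ev1 W := fun h => lt_irrefl _ (mem_range.mp (hW (ev1_sub W h)))
    have hc := card_ev W
    rw [ev0_insert_top hW, ev1_insert_top hW]
    by_cases hp : Even (N + W.card)
    · rw [if_pos hp, if_pos hp, card_insert_of_notMem hN0, if_neg]
      rintro ⟨h1, h2⟩
      omega
    · rw [if_neg hp, if_neg hp, card_insert_of_notMem hN1, if_neg]
      rintro ⟨h1, h2⟩
      apply hp
      rw [hc, h1, show (ev1 W).card = l by omega, zero_add]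
      exact he
  · rw [sum_filter]
    refine sum_congr rfl fun W hW => ?_
    rw [mem_powerset] at hW
    have hN0 : N ∉ ev0 W := fun h => lt_irrefl _ (mem_range.mp (hW (ev0_sub W h)))
    have hN1 : N ∉ ev1 W := fun h => lt_irrefl _ (mem_range.mp (hW (ev1_sub W h)))
    have hc := card_ev W
    rw [ev0_insert_top hW, ev1_insert_top hW]
    by_cases hp : Even (N + W.card)
    · rw [if_pos hp, if_pos hp, card_insert_of_notMem hN0, if_neg, if_neg]
      · rintro ⟨h1, h2⟩
        apply he
        rw [hc, h1, h2, zero_add] at hp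
        exact hp
      · rintro ⟨h1, h2⟩
        omega
    · rw [if_neg hp, if_neg hp, card_insert_of_notMem hN1]
      refine if_congr ?_ rfl rfl
      omega

theorem T2_congr {N k l : ℕ} {F G : Finset ℕ → Finset ℕ → R}
    (h : ∀ A B, A ⊆ range N → B ⊆ range N → A.card = k → B.card = l → F A B = G A B) :
    T2 N k l F = T2 N k l G := by
  refine sum_congr rfl fun W hW => ?_
  rw [mem_filter, mem_powerset] at hW
  exact h _ _ ((ev0_sub W).trans hW.1) ((ev1_sub W).trans hW.1) hW.2.1 hW.2.2

theorem T2_add (N k l : ℕ) (F G : Finset ℕ → Finset ℕ → R) :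
    T2 N k l (fun A B => F A B + G A B) = T2 N k l F + T2 N k l G := sum_add_distrib

theorem T2_mul (N k l : ℕ) (F : Finset ℕ → Finset ℕ → R) (c : R) :
    T2 N k l (fun A B => F A B * c) = T2 N k l F * c := (sum_mul _ _ _).symm

theorem T2_eq_zero {N k l : ℕ} {F : Finset ℕ → Finset ℕ → R}
    (h : ∀ A B, A ⊆ range N → B ⊆ range N → A.card = k → B.card = l → F A B = 0) :
    T2 N k l F = 0 := by
  refine sum_eq_zero fun W hW => ?_
  rw [mem_filter, mem_powerset] at hW
  exact h _ _ ((ev0_sub W).trans hW.1) ((ev1_sub W).trans hW.1) hW.2.1 hW.2.2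

end ring

/-! ### The faces of `a h_p` -/

theorem face_hx_lo {p j : ℕ} (hj : j ≤ p) (m : ℕ) : face j (hx p m) = hx (p + 1) m := by
  rw [hx, hx, map_pow, face, aeval_X]
  simp only
  rw [if_neg (by omega), if_pos hj]
  rfl

theorem face_hx_hi {p j : ℕ} (hj : p + 2 ≤ j) (m : ℕ) : face j (hx p m) = hx p m := by
  rw [hx, map_pow, face, aeval_X]
  simp only
  rw [if_pos (by omega)]
  rfl

theorem face_hx_mid (p m : ℕ) : face (p + 1) (hx p m) = hx p m + hx (p + 1) m := by
  rw [hx, hx, map_pow, face, aeval_X]
  simp only
  rw [if_neg (by omega), if_neg (by omega)]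
  have : (∑ i ∈ range (0 + 2), ξ p (0 + 1 - i) ^ (2 ^ i) * ξ (p + 1) i : P)
      = X (p, 0) + X (p + 1, 0) := by
    rw [sum_range_succ, sum_range_one]
    simp [ξ]
  rw [this]
  have h2 : CharP P 2 := inferInstance
  exact add_pow_char_pow (p := 2) (n := m) (X (p, 0) : P) (X (p + 1, 0))

theorem C_card_one {p : ℕ} {a : P} (ha : a ∈ St.C p) {B : Finset ℕ} (hB : B.card = 1) :
    faces B a ∈ St.C (p + 1) := by
  have := C_faces B ha
  rwa [hB] at this

/-- two faces, all numbers at most `p + 1` -/
theorem faces_two {p m : ℕ} {a : P} {A : Finset ℕ} (hA : A ⊆ range (p + 2)) (hc : A.card = 2) :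
    faces A (a * hx p m) = faces A a * hx (p + 2) m := by
  obtain ⟨i, j, hij, rfl⟩ : ∃ i j, i < j ∧ A = {i, j} := by
    obtain ⟨a, b, hab, rfl⟩ := card_eq_two.mp hc
    rcases Nat.lt_or_gt_of_ne hab with h | h
    · exact ⟨a, b, h, rfl⟩
    · exact ⟨b, a, h, pair_comm a b⟩
  have hj := mem_range.mp (hA (mem_insert_of_mem (mem_singleton_self j)))
  have h1 : ∀ x : P, faces {i, j} x = face j (face i x) := by
    intro x
    rw [pair_comm, faces_insert (by simpa using hij), H92ND.faces_single]
  rw [h1, h1, map_mul, map_mul, face_hx_lo (by omega), face_hx_lo (by omega)]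

/-- two faces, the larger number is `p + 2` -/
theorem faces_ins2 {p m : ℕ} {a : P} (ha : a ∈ St.C p) {A : Finset ℕ} (hA : A ⊆ range (p + 2))
    (hc : A.card = 1) :
    faces (insert (p + 2) A) (a * hx p m) = faces A a * (hx (p + 1) m + hx (p + 2) m)
      + (if p + 1 ∈ A then a * hx p m else 0) := by
  obtain ⟨u, rfl⟩ := card_eq_one.mp hc
  have hu := mem_range.mp (hA (mem_singleton_self u))
  rw [faces_insert (by simpa using hu), H92ND.faces_single, H92ND.faces_single, map_mul, map_mul,
    face_of_C (C_face u ha) (by omega)]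
  by_cases h : u = p + 1
  · subst h
    rw [if_pos (mem_singleton_self _), face_of_C ha (by omega), face_hx_mid, map_add,
      face_hx_hi (by omega), face_hx_mid]
    ring
  · rw [if_neg (by simpa using fun e => h e.symm), face_hx_lo (by omega), face_hx_mid]
    ring

/-- two faces, the larger number is `p + 3`, the smaller one at most `p + 1` -/
theorem faces_ins3 {p m : ℕ} {a : P} (ha : a ∈ St.C p) {A : Finset ℕ} (hA : A ⊆ range (p + 2))
    (hc : A.card = 1) :
    faces (insert (p + 3) A) (a * hx p m) = faces A a * hx (p + 1) m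
      + (if p + 1 ∈ A then a * hx p m else 0) := by
  obtain ⟨u, rfl⟩ := card_eq_one.mp hc
  have hu := mem_range.mp (hA (mem_singleton_self u))
  rw [faces_insert (by simp; omega), H92ND.faces_single, H92ND.faces_single, map_mul, map_mul,
    face_of_C (C_face u ha) (by omega)]
  by_cases h : u = p + 1
  · subst h
    rw [if_pos (mem_singleton_self _), face_of_C ha (by omega), face_hx_mid, map_add,
      face_hx_hi (by omega), face_hx_hi (by omega)]
    ring
  · rw [if_neg (by simpa using fun e => h e.symm), face_hx_lo (by omega), face_hx_hi (by omega)]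
    ring

theorem faces_top {p m : ℕ} {a : P} (ha : a ∈ St.C p) :
    faces (insert (p + 3) (insert (p + 2) ∅)) (a * hx p m) = a * hx p m := by
  rw [faces_insert (by simp), faces_insert (by simp)]
  have h1 : faces ∅ (a * hx p m) = a * hx p m := by simp [faces]
  rw [h1, map_mul, face_of_C ha (by omega), face_hx_hi (by omega), map_mul,
    face_of_C ha (by omega), face_hx_hi (by omega)]

theorem faces_ins_a {p : ℕ} {a : P} (ha : a ∈ St.C p) {A : Finset ℕ} (hA : A ⊆ range (p + 2))
    (hc : A.card = 1) : faces (insert (p + 2) A) a = faces A a := by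
  rw [faces_insert (fun b hb => mem_range.mp (hA hb)), face_of_C (C_card_one ha hc) (by omega)]

theorem ca1 : StCA1 := by
  intro p m a ha
  set e0 := hx p m with he0
  set e1 := hx (p + 1) m with he1
  set e2 := hx (p + 2) m with he2
  -- the three pieces
  have k22 : T2 (p + 2) 2 2 (fun A B => faces A (a * e0) * faces B (a * e0))
      = T2 (p + 2) 2 2 (fun A B => faces A a * faces B a) * e2 ^ 2 := by
    rw [← T2_mul]
    refine T2_congr fun A B hA hB hcA hcB => ?_
    rw [faces_two hA hcA, faces_two hB hcB]
    ring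
  rcases Nat.even_or_odd p with hp | hp
  · -- `p` even
    have hp' : ¬ Even (p + 1) := by rw [Nat.even_add_one]; exact not_not.mpr hp
    have n2 : Even (p + 2) := by rw [Nat.even_add]; simp [hp]
    have n3 : ¬ Even (p + 3) := by
      rw [show p + 3 = (p + 1) + 2 by omega, Nat.even_add]; simp [hp']
    have n4 : Even (p + 4) := by rw [Nat.even_add]; simp [hp]; decide
    have n5 : ¬ Even (p + 5) := by
      rw [show p + 5 = (p + 1) + 4 by omega, Nat.even_add]; simp [hp']; decide
    have n6 : Even (p + 6) := by rw [Nat.even_add]; simp [hp]; decide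
    have r1 : sqC 2 (p + 1) (a * e0)
        = T2 (p + 2) 2 2 (fun A B => faces A (a * e0) * faces B (a * e0))
          + T2 (p + 2) 2 1 (fun A B => faces A (a * e0) * faces (insert (p + 2) B) (a * e0))
          + (T2 (p + 2) 1 2 (fun A B => faces (insert (p + 3) A) (a * e0) * faces B (a * e0))
            + T2 (p + 2) 0 2 (fun A B => faces (insert (p + 3) (insert (p + 2) A)) (a * e0)
              * faces B (a * e0))) := by
      have z1 := T2_succ (p + 3) 1 1 (fun A B => faces A (a * e0) * faces B (a * e0))
      have z2 := T2_succ (p + 2) 1 1 (fun A B => faces A (a * e0) * faces B (a * e0))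
      have z3 := T2_succ (p + 2) 0 1 (fun A B => faces (insert (p + 3) A) (a * e0) * faces B (a * e0))
      rw [if_pos (by exact n6)] at z1
      rw [if_neg (by exact n5)] at z2
      rw [if_pos (by exact n4)] at z3
      exact z1.trans (congrArg₂ (· + ·) z2 z3)
    have r2 : sqC 2 p a = T2 (p + 2) 2 2 (fun A B => faces A a * faces B a)
          + T2 (p + 2) 2 1 (fun A B => faces A a * faces B a) := by
      have z1 := T2_succ (p + 2) 1 1 (fun A B => faces A a * faces B a)
      rw [if_neg (by exact n5)] at z1
      refine z1.trans (congrArg₂ (· + ·) rfl ?_)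
      refine T2_congr fun A B hA hB hcA hcB => ?_
      rw [faces_ins_a ha hB hcB]
    have s21 : T2 (p + 2) 2 1 (fun A B => faces A (a * e0) * faces (insert (p + 2) B) (a * e0))
        = T2 (p + 2) 2 1 (fun A B => faces A a * faces B a) * (e2 * (e1 + e2))
          + T2 (p + 1) 2 0 (fun A _ => faces A a) * (a * e0 * e2) := by
      have t1 : T2 (p + 1) 2 0 (fun A _ => faces A a)
          = T2 (p + 2) 2 1 (fun A B => if p + 1 ∈ B then faces A a else 0) := by
        have z1 := T2_succ (p + 1) 1 0 (fun A B => if p + 1 ∈ B then faces A a else 0)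
        rw [if_neg (by exact n3)] at z1
        refine Eq.symm (z1.trans (Eq.trans (congrArg₂ (· + ·) (T2_eq_zero ?_) rfl) ?_))
        · intro A B hA hB hcA hcB
          rw [if_neg fun h => lt_irrefl _ (mem_range.mp (hB h))]
        · rw [zero_add]
          refine T2_congr fun A B hA hB hcA hcB => ?_
          rw [if_pos (mem_insert_self _ _)]
      rw [t1, ← T2_mul, ← T2_mul, ← T2_add]
      refine T2_congr fun A B hA hB hcA hcB => ?_
      rw [faces_two hA hcA, faces_ins2 ha hB hcB]
      split_ifs <;> ring
    have s12 : T2 (p + 2) 1 2 (fun A B => faces (insert (p + 3) A) (a * e0) * faces B (a * e0))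
        = T2 (p + 2) 1 2 (fun A B => faces A a * faces B a) * (e1 * e2) := by
      have t1 : T2 (p + 2) 1 2 (fun A B => if p + 1 ∈ A then faces B a else 0) = 0 := by
        have z1 := T2_succ (p + 1) 0 1 (fun A B => if p + 1 ∈ A then faces B a else 0)
        rw [if_neg (by exact n3)] at z1
        refine z1.trans (Eq.trans (congrArg₂ (· + ·) (T2_eq_zero ?_) (T2_eq_zero ?_)) (zero_add _))
        · intro A B hA hB hcA hcB
          rw [if_neg fun h => lt_irrefl _ (mem_range.mp (hA h))]
        · intro A B hA hB hcA hcB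
          rw [if_neg fun h => lt_irrefl _ (mem_range.mp (hA h))]
      rw [← add_zero (T2 (p + 2) 1 2 (fun A B => faces A a * faces B a) * (e1 * e2)),
        ← zero_mul (a * e0 * e2), ← t1, ← T2_mul, ← T2_mul, ← T2_add]
      refine T2_congr fun A B hA hB hcA hcB => ?_
      rw [faces_two hB hcB, faces_ins3 ha hA hcA]
      split_ifs <;> ring
    have s02 : T2 (p + 2) 0 2 (fun A B => faces (insert (p + 3) (insert (p + 2) A)) (a * e0)
              * faces B (a * e0))
        = T2 (p + 1) 0 2 (fun _ B => faces B a) * (a * e0 * e2) := by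
      have t1 : T2 (p + 1) 0 2 (fun _ B => faces B a) = T2 (p + 2) 0 2 (fun _ B => faces B a) := by
        have z1 := T2_zero_succ (p + 1) 1 (fun _ B => faces B a)
        rw [if_pos (by exact n2), add_zero] at z1
        exact z1.symm
      rw [t1, ← T2_mul]
      refine T2_congr fun A B hA hB hcA hcB => ?_
      rw [card_eq_zero.mp hcA, faces_top ha, faces_two hB hcB]
      ring
    rw [r1, r2, k22, s21, s12, s02, T3, R2]
    ring
  · -- `p` odd
    rw [← Nat.not_even_iff_odd] at hp
    have n2 : ¬ Even (p + 2) := by rw [Nat.even_add]; simp [hp]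
    have hp' : Even (p + 1) := by rw [Nat.even_add_one]; exact hp
    have n3 : Even (p + 3) := by
      rw [show p + 3 = (p + 1) + 2 by omega, Nat.even_add]; simp [hp']
    have n4 : ¬ Even (p + 4) := by rw [Nat.even_add]; simp [hp]; decide
    have n5 : Even (p + 5) := by
      rw [show p + 5 = (p + 1) + 4 by omega, Nat.even_add]; simp [hp']; decide
    have n6 : ¬ Even (p + 6) := by rw [Nat.even_add]; simp [hp]; decide
    have r1 : sqC 2 (p + 1) (a * e0)
        = T2 (p + 2) 2 2 (fun A B => faces A (a * e0) * faces B (a * e0))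
          + T2 (p + 2) 1 2 (fun A B => faces (insert (p + 2) A) (a * e0) * faces B (a * e0))
          + (T2 (p + 2) 2 1 (fun A B => faces A (a * e0) * faces (insert (p + 3) B) (a * e0))
            + T2 (p + 2) 2 0 (fun A B => faces A (a * e0)
              * faces (insert (p + 3) (insert (p + 2) B)) (a * e0))) := by
      have z1 := T2_succ (p + 3) 1 1 (fun A B => faces A (a * e0) * faces B (a * e0))
      have z2 := T2_succ (p + 2) 1 1 (fun A B => faces A (a * e0) * faces B (a * e0))
      have z3 := T2_succ (p + 2) 1 0 (fun A B => faces A (a * e0) * faces (insert (p + 3) B) (a * e0))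
      rw [if_neg (by exact n6)] at z1
      rw [if_pos (by exact n5)] at z2
      rw [if_neg (by exact n4)] at z3
      exact z1.trans (congrArg₂ (· + ·) z2 z3)
    have r2 : sqC 2 p a = T2 (p + 2) 2 2 (fun A B => faces A a * faces B a)
          + T2 (p + 2) 1 2 (fun A B => faces A a * faces B a) := by
      have z1 := T2_succ (p + 2) 1 1 (fun A B => faces A a * faces B a)
      rw [if_pos (by exact n5)] at z1
      refine z1.trans (congrArg₂ (· + ·) rfl ?_)
      refine T2_congr fun A B hA hB hcA hcB => ?_
      rw [faces_ins_a ha hA hcA]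
    have s12 : T2 (p + 2) 1 2 (fun A B => faces (insert (p + 2) A) (a * e0) * faces B (a * e0))
        = T2 (p + 2) 1 2 (fun A B => faces A a * faces B a) * (e2 * (e1 + e2))
          + T2 (p + 1) 0 2 (fun _ B => faces B a) * (a * e0 * e2) := by
      have t1 : T2 (p + 1) 0 2 (fun _ B => faces B a)
          = T2 (p + 2) 1 2 (fun A B => if p + 1 ∈ A then faces B a else 0) := by
        have z1 := T2_succ (p + 1) 0 1 (fun A B => if p + 1 ∈ A then faces B a else 0)
        rw [if_pos (by exact n3)] at z1
        refine Eq.symm (z1.trans (Eq.trans (congrArg₂ (· + ·) (T2_eq_zero ?_) rfl) ?_))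
        · intro A B hA hB hcA hcB
          rw [if_neg fun h => lt_irrefl _ (mem_range.mp (hA h))]
        · rw [zero_add]
          refine T2_congr fun A B hA hB hcA hcB => ?_
          rw [if_pos (mem_insert_self _ _)]
      rw [t1, ← T2_mul, ← T2_mul, ← T2_add]
      refine T2_congr fun A B hA hB hcA hcB => ?_
      rw [faces_two hB hcB, faces_ins2 ha hA hcA]
      split_ifs <;> ring
    have s21 : T2 (p + 2) 2 1 (fun A B => faces A (a * e0) * faces (insert (p + 3) B) (a * e0))
        = T2 (p + 2) 2 1 (fun A B => faces A a * faces B a) * (e1 * e2) := by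
      have t1 : T2 (p + 2) 2 1 (fun A B => if p + 1 ∈ B then faces A a else 0) = 0 := by
        have z1 := T2_succ (p + 1) 1 0 (fun A B => if p + 1 ∈ B then faces A a else 0)
        rw [if_pos (by exact n3)] at z1
        refine z1.trans (Eq.trans (congrArg₂ (· + ·) (T2_eq_zero ?_) (T2_eq_zero ?_)) (zero_add _))
        · intro A B hA hB hcA hcB
          rw [if_neg fun h => lt_irrefl _ (mem_range.mp (hB h))]
        · intro A B hA hB hcA hcB
          rw [if_neg fun h => lt_irrefl _ (mem_range.mp (hB h))]
      rw [← add_zero (T2 (p + 2) 2 1 (fun A B => faces A a * faces B a) * (e1 * e2)),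
        ← zero_mul (a * e0 * e2), ← t1, ← T2_mul, ← T2_mul, ← T2_add]
      refine T2_congr fun A B hA hB hcA hcB => ?_
      rw [faces_two hA hcA, faces_ins3 ha hB hcB]
      split_ifs <;> ring
    have s20 : T2 (p + 2) 2 0 (fun A B => faces A (a * e0)
              * faces (insert (p + 3) (insert (p + 2) B)) (a * e0))
        = T2 (p + 1) 2 0 (fun A _ => faces A a) * (a * e0 * e2) := by
      have t1 : T2 (p + 1) 2 0 (fun A _ => faces A a) = T2 (p + 2) 2 0 (fun A _ => faces A a) := by
        have z1 := T2_succ_zero (p + 1) 1 (fun A _ => faces A a)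
        rw [if_neg (by exact n2), add_zero] at z1
        exact z1.symm
      rw [t1, ← T2_mul]
      refine T2_congr fun A B hA hB hcA hcB => ?_
      rw [card_eq_zero.mp hcB, faces_top ha, faces_two hA hcA]
      ring
    rw [r1, r2, k22, s21, s12, s20, T3, R2]
    ring

end Pool.Agent.H92ND.Two
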