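import Pool.Agent.H92ND2.Stm

/-!
Part CN of the `E₄` theorem: counting.
-/

set_option autoImplicit false

namespace Pool.Agent.H92ND.Two

open Finset MvPolynomial Pool.Agent.W624.Stz Pool.Agent.Q171.ND3 Pool.Agent.Q171.ND3.St
  Pool.Agent.H92ND

theorem OD_mono {p p' : ℕ → Prop} (h : ∀ t, p t → p' t) (n : ℕ) :
    (OD p n).card ≤ (OD p' n).card := by
  refine card_le_card fun t ht => ?_
  rw [mem_OD] at ht ⊢
  exact ⟨ht.1, ht.2.1, h t ht.2.2⟩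

theorem OD_or (p p' : ℕ → Prop) (n : ℕ) :
    (OD (fun t => p t ∨ p' t) n).card ≤ (OD p n).card + (OD p' n).card := by
  classical
  refine (card_le_card (t := OD p n ∪ OD p' n) fun t ht => ?_).trans (card_union_le _ _)
  rw [mem_OD] at ht
  rw [mem_union, mem_OD, mem_OD]
  rcases ht.2.2 with h | h
  · exact Or.inl ⟨ht.1, ht.2.1, h⟩
  · exact Or.inr ⟨ht.1, ht.2.1, h⟩

theorem not_ex1_one {t : ℕ} (ht : 0 < t) : ¬ Ex1 1 t := by
  obtain ⟨k, t', ht', rfl⟩ := odd_part ht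
  rintro ⟨u, hu, hB, h⟩
  by_cases h1 : t' = 1
  · subst h1
    rw [mul_one] at hu
    rcases one_line hu.mem hu.hom hu.cyc with h0 | h0
    · exact hB (by rw [h0]; exact Submodule.zero_mem _)
    · have h2 := sq1_h k
      rw [hh'] at h2
      rw [h0, h2] at h
      exact h_sq_ne k h
  · have h0 := one_line_zero ht' h1 hu.mem hu.hom hu.cyc
    exact hB (by rw [h0]; exact Submodule.zero_mem _)

/-- the general counting lemma -/
theorem count_gen (s m0 r : ℕ) (p Q : ℕ → Prop) (hNz : ∀ t, p t → Nz s (2 ^ m0 * t))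
    (K : ℕ → ℕ) (hK : ∀ c N, Odd c → 0 < N → 2 ^ K c ∣ N → p (c + N) →
      (∃ j, 1 ≤ j ∧ j ≤ r ∧ Nz j (2 ^ m0 * N)) ∨ (1 ≤ r ∧ Q N))
    (hQ : ∀ k t', Q (2 ^ k * t') → Q t')
    (hG : ∀ i, 1 ≤ i → i ≤ r → Good m0 i)
    (hC : 1 ≤ r → ∃ C, ∀ n, (OD Q n).card ≤ C * (n + 1) ^ (r - 1)) :
    ∃ C, ∀ n, (OD p n).card ≤ C * (n + 1) ^ r := by
  obtain ⟨B, hB⟩ := alive_split s m0 K
  obtain ⟨C, hCC⟩ := count_le r B (fun j n => OD (fun t => Nz j (2 ^ m0 * t) ∨ (j = r ∧ Q t)) n)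
    (fun j hj1 hj2 => by
      obtain ⟨C1, hC1⟩ := upper r m0 hG j hj1 hj2
      by_cases hj : j = r
      · subst hj
        obtain ⟨C2, hC2⟩ := hC hj1
        refine ⟨C1 + C2, fun n => ?_⟩
        refine (OD_or _ _ n).trans ?_
        rw [add_mul]
        refine Nat.add_le_add (hC1 n) (le_trans (OD_mono (fun t h => h.2) n) (hC2 n))
      · refine ⟨C1, fun n => le_trans (OD_mono (fun t h => ?_) n) (hC1 n)⟩
        rcases h with h | h
        · exact h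
        · exact absurd h.1 hj)
  refine ⟨C, fun n => hCC n _ fun t ht => ?_⟩
  rw [mem_OD] at ht
  obtain ⟨htn, hodd, hz⟩ := ht
  rcases hB t hodd (hNz t hz) with h | ⟨c, N, hc, hcB, hN, hd, rfl⟩
  · exact Or.inl h
  · right
    obtain ⟨k, t', ht', hNk⟩ := odd_part hN
    have hle : 2 ^ k ≤ N := by
      rw [hNk]; exact Nat.le_mul_of_pos_right _ ht'.pos
    have hle' : t' ≤ N := by
      rw [hNk]; exact Nat.le_mul_of_pos_left _ (by positivity)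
    have hk : k < n := by
      have : 2 ^ k < 2 ^ n := by omega
      exact (Nat.pow_lt_pow_iff_right (by norm_num)).mp this
    rcases hK c N hc hN hd hz with ⟨j, hj1, hj2, hz2⟩ | ⟨hr, hq⟩
    · refine ⟨c, k, t', j, hcB, hk.le, hj1, hj2, ?_, by rw [hNk]⟩
      rw [mem_OD]
      exact ⟨by omega, ht', Or.inl (transfer (hG _ hj1 hj2) hNk hz2)⟩
    · refine ⟨c, k, t', r, hcB, hk.le, hr, le_rfl, ?_, by rw [hNk]⟩
      rw [mem_OD]
      exact ⟨by omega, ht', Or.inr ⟨rfl, hQ k t' (hNk ▸ hq)⟩⟩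

theorem cEx1 (q m0 : ℕ) (hq : 2 ≤ q) (hG : ∀ i, 1 ≤ i → i ≤ q → Good m0 i) :
    ∃ C, ∀ n, (OD (fun t => Ex1 q (2 ^ m0 * t)) n).card ≤ C * (n + 1) ^ (q - 2) := by
  obtain ⟨C, hC⟩ := upper_exc q m0 hq hG
  refine ⟨C, fun n => le_trans (OD_mono (fun t h => ?_) n) (hC n)⟩
  obtain ⟨u, hu, hB, h1⟩ := h
  exact exc_of_zero hu hB h1

theorem cEx2 (hE2 : StE2) (hDN : StDN) (q m0 : ℕ) (hq : 2 ≤ q)
    (hG : ∀ i, 1 ≤ i → i ≤ q + 4 → Good m0 i) :
    ∃ C, ∀ n, (OD (fun t => Ex2 q (2 ^ m0 * t)) n).card ≤ C * (n + 1) ^ (q - 2) := by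
  obtain ⟨r, rfl⟩ : ∃ r, q = r + 1 := ⟨q - 1, by omega⟩
  obtain ⟨K, hK⟩ := hE2 r m0 (by omega) (fun i hi1 hi2 => hG i hi1 (by omega))
  refine count_gen (r + 1) m0 (r + 1 - 2) (fun t => Ex2 (r + 1) (2 ^ m0 * t))
    (fun t => Ex1 r (2 ^ m0 * t)) (fun t h => ?_) K (fun c N hc hN hd h => ?_) (fun k t' h => ?_)
    (fun i hi1 hi2 => hG i hi1 (by omega)) (fun hr => ?_)
  · obtain ⟨w, hw, hB, _⟩ := h
    exact ⟨w, hw, hB⟩
  · rcases hK c N hc hN hd h with ⟨i, hi1, hi2, _, hz⟩ | h1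
    · exact Or.inl ⟨r + 1 - i, by omega, by omega, hz⟩
    · right
      refine ⟨?_, h1⟩
      by_contra hlt
      have hr1 : r = 1 := by omega
      subst hr1
      exact not_ex1_one (Nat.mul_pos (by positivity) hN) h1
  · have h' : Ex1 r (2 ^ k * (2 ^ m0 * t')) := by
      rw [mul_left_comm]; exact h
    exact (hDN r m0 (by omega) (fun i hi1 hi2 => hG i hi1 (by omega)) (2 ^ m0 * t') k
      (dvd_mul_right _ _)).1 h'
  · obtain ⟨C, hC⟩ := cEx1 r m0 (by omega) (fun i hi1 hi2 => hG i hi1 (by omega))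
    refine ⟨C, fun n => ?_⟩
    have e : r + 1 - 2 - 1 = r - 2 := by omega
    rw [e]
    exact hC n

/-- PART CN -/
theorem cn (hE2 : StE2) (hEU : StEU) (hDN : StDN) : StCN := by
  intro q m0 hq hm0 hG
  obtain ⟨K, hK⟩ := hEU q m0 (by omega) hm0 hG
  refine count_gen (q + 2) m0 (q - 1) (fun t => ExU q (2 ^ m0 * t))
    (fun t => Ex1 q (2 ^ m0 * t) ∨ Ex2 q (2 ^ m0 * t)) (fun t h => ?_) K
    (fun c N hc hN hd h => ?_) (fun k t' h => ?_)
    (fun i hi1 hi2 => hG i hi1 (by omega)) (fun hr => ?_)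
  · obtain ⟨y, hy, hB, _⟩ := h
    exact ⟨y, hy, hB⟩
  · rcases hK c N hc hN hd h with ⟨i, hi1, hi2, _, hz⟩ | h1
    · exact Or.inl ⟨q + 2 - i, by omega, by omega, hz⟩
    · exact Or.inr ⟨by omega, h1⟩
  · have hD := hDN q m0 (by omega) hG (2 ^ m0 * t') k (dvd_mul_right _ _)
    rw [mul_left_comm] at h
    rcases h with h | h
    · exact Or.inl (hD.1 h)
    · exact Or.inr (hD.2.1 h)
  · obtain ⟨C1, hC1⟩ := cEx1 q m0 hq (fun i hi1 hi2 => hG i hi1 (by omega))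
    obtain ⟨C2, hC2⟩ := cEx2 hE2 hDN q m0 hq hG
    refine ⟨C1 + C2, fun n => ?_⟩
    have e : q - 1 - 1 = q - 2 := by omega
    rw [e, add_mul]
    exact (OD_or _ _ n).trans (Nat.add_le_add (hC1 n) (hC2 n))

end Pool.Agent.H92ND.Two
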