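import Pool.Agent.H92ND2.Stm

/-!
Decomposition of cocycles: the parts DC1 and DC2.
-/

set_option autoImplicit false
set_option linter.unusedSectionVars false

namespace Pool.Agent.H92ND.Two

open Finset MvPolynomial Pool.Agent.W624.Stz Pool.Agent.Q171.ND3 Pool.Agent.Q171.ND3.St
  Pool.Agent.H92ND

theorem dc_Cy_sum {ι : Type} (S : Finset ι) {s t : ℕ} {v : ι → P} (h : ∀ k ∈ S, Cy s t (v k)) :
    Cy s t (∑ k ∈ S, v k) :=
  Finset.sum_induction _ (fun x => Cy s t x) (fun _ _ h h' => h.add h') (Cy.zero _ _) h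

theorem dc_Cy_smul {s t : ℕ} {v : P} (c : ZMod 2) (h : Cy s t v) : Cy s t (c • v) := by
  have : c = 0 ∨ c = 1 := by revert c; decide
  rcases this with h0 | h0
  · rw [h0, zero_smul]; exact Cy.zero _ _
  · rw [h0, one_smul]; exact h

theorem dc_sp_smul (m : ℕ) (c : ZMod 2) (y : P) : sp m (c • y) = c • sp m y := map_smul _ _ _

theorem dc1 : StDC1 := by
  intro r c hr hc e he hall
  obtain ⟨K, hK⟩ := S1 (r + 1) c (by omega) hc
  refine ⟨K, fun N hN hd hno x hx => ?_⟩
  obtain ⟨ι, _, q, a, b, h, hB⟩ := hK N hN hd x hx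
  have hterm : ∀ k, ∃ v, Cy r N v ∧ a k * sp (q k) (b k) + v * sp r e ∈ B (r + 1) := by
    intro k
    obtain ⟨hk1, hk2, hk3⟩ := h k
    have hzero : ∀ w : P, w ∈ B (r + 1) → ∃ v, Cy r N v ∧ w + v * sp r e ∈ B (r + 1) := fun w hw =>
      ⟨0, Cy.zero _ _, by rw [zero_mul, add_zero]; exact hw⟩
    rcases hk3 with h0 | ⟨hk3, hk4⟩
    · refine hzero _ ?_
      rw [h0, map_zero, mul_zero]
      exact Submodule.zero_mem _
    · have ee : r + 1 = q k + (r + 1 - q k) := by omega
      by_cases ha : a k ∈ B (q k)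
      · refine hzero _ ?_
        have := mulB_left ha hk4.mem hk4.cyc
        rwa [← ee] at this
      by_cases hb : b k ∈ B (r + 1 - q k)
      · refine hzero _ ?_
        have := mulB_right hk2.mem hk2.cyc hb
        rwa [← ee] at this
      rcases Nat.lt_or_ge (r + 1 - q k) 2 with hlt | hge
      · have hrk : q k = r := by omega
        rw [hrk, show r + 1 - r = 1 by omega] at hk4
        rw [hrk] at hk2 ⊢
        rcases hall _ hk4 with h0 | h1
        · refine hzero _ ?_
          rw [h0, map_zero, mul_zero]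
          exact Submodule.zero_mem _
        · refine ⟨a k, hk2, ?_⟩
          rw [h1, P2]
          exact Submodule.zero_mem _
      · exfalso
        refine hno (r + 1 - q k) hge (by omega) ⟨⟨b k, hk4, hb⟩, ?_⟩
        rw [show r + 1 - (r + 1 - q k) = q k by omega]
        exact ⟨a k, hk2, ha⟩
  choose v hv1 hv2 using hterm
  refine ⟨∑ k, v k, dc_Cy_sum _ fun k _ => hv1 k, ?_⟩
  have h1 : ∑ k, (a k * sp (q k) (b k) + v k * sp r e) ∈ B (r + 1) :=
    Submodule.sum_mem _ fun k _ => hv2 k
  rw [sum_add_distrib, ← sum_mul] at h1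
  have h2 := Submodule.add_mem _ hB h1
  have e1 : x + ∑ k, a k * sp (q k) (b k) + (∑ k, a k * sp (q k) (b k) + (∑ k, v k) *
      sp r e) = x + (∑ k, v k) * sp r e := by
    linear_combination P2 (∑ k, a k * sp (q k) (b k))
  rwa [e1] at h2

theorem dc2 : StDC2 := by
  intro q c hq hc e he hall n b' hb' hsp
  obtain ⟨K, hK⟩ := S1 (q + 2) c (by omega) hc
  refine ⟨K, fun N hN hd hno x hx => ?_⟩
  obtain ⟨ι, _, r, a, b, h, hB⟩ := hK N hN hd x hx
  have hterm : ∀ k, ∃ (v : P) (g : Fin n → P), Cy (q + 1) N v ∧ (∀ j, Cy q N (g j)) ∧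
      a k * sp (r k) (b k) + (v * sp (q + 1) e + ∑ j, g j * sp q (b' j)) ∈ B (q + 2) := by
    intro k
    obtain ⟨hk1, hk2, hk3⟩ := h k
    have hzero : ∀ w : P, w ∈ B (q + 2) → ∃ (v : P) (g : Fin n → P), Cy (q + 1) N v ∧
        (∀ j, Cy q N (g j)) ∧ w + (v * sp (q + 1) e + ∑ j, g j * sp q (b' j)) ∈ B (q + 2) :=
      fun w hw => ⟨0, 0, Cy.zero _ _, fun j => Cy.zero _ _, by simpa using hw⟩
    rcases hk3 with h0 | ⟨hk3, hk4⟩
    · refine hzero _ ?_
      rw [h0, map_zero, mul_zero]
      exact Submodule.zero_mem _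
    · have ee : q + 2 = r k + (q + 2 - r k) := by omega
      by_cases ha : a k ∈ B (r k)
      · refine hzero _ ?_
        have := mulB_left ha hk4.mem hk4.cyc
        rwa [← ee] at this
      by_cases hb : b k ∈ B (q + 2 - r k)
      · refine hzero _ ?_
        have := mulB_right hk2.mem hk2.cyc hb
        rwa [← ee] at this
      rcases Nat.lt_or_ge (q + 2 - r k) 3 with hlt | hge
      · rcases Nat.lt_or_ge (q + 2 - r k) 2 with hlt2 | hge2
        · have hrk : r k = q + 1 := by omega
          rw [hrk, show q + 2 - (q + 1) = 1 by omega] at hk4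
          rw [hrk] at hk2 ⊢
          rcases hall _ hk4 with h0 | h1
          · refine hzero _ ?_
            rw [h0, map_zero, mul_zero]
            exact Submodule.zero_mem _
          · refine ⟨a k, 0, hk2, fun j => Cy.zero _ _, ?_⟩
            rw [h1]
            have e0 : ∑ j, (0 : Fin n → P) j * sp q (b' j) = 0 := by simp
            rw [e0, add_zero, P2]
            exact Submodule.zero_mem _
        · have hrk : r k = q := by omega
          rw [hrk, show q + 2 - q = 2 by omega] at hk4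
          rw [hrk] at hk2 ⊢
          obtain ⟨ε, hε⟩ := hsp _ hk4
          refine ⟨0, fun j => ε j • a k, Cy.zero _ _, fun j => dc_Cy_smul _ hk2, ?_⟩
          have h1 := mulB_right hk2.mem hk2.cyc hε
          have e0 : a k * sp q (b k) + (0 * sp (q + 1) e + ∑ j, (ε j • a k) * sp q (b' j)) =
              a k * sp q (b k + ∑ j, ε j • b' j) := by
            rw [map_add, map_sum, mul_add, mul_sum, zero_mul, zero_add]
            congr 1
            refine sum_congr rfl fun j _ => ?_
            rw [dc_sp_smul, smul_mul_assoc, mul_smul_comm]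
          rw [e0]
          exact h1
      · exfalso
        refine hno (q + 2 - r k) hge (by omega) ⟨⟨b k, hk4, hb⟩, ?_⟩
        rw [show q + 2 - (q + 2 - r k) = r k by omega]
        exact ⟨a k, hk2, ha⟩
  choose v g hv1 hv2 hv3 using hterm
  refine ⟨∑ k, v k, fun j => ∑ k, g k j, dc_Cy_sum _ fun k _ => hv1 k,
    fun j => dc_Cy_sum _ fun k _ => hv2 k j, ?_⟩
  have h1 : ∑ k, (a k * sp (r k) (b k) + (v k * sp (q + 1) e + ∑ j, g k j * sp q (b' j)))
      ∈ B (q + 2) := Submodule.sum_mem _ fun k _ => hv3 k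
  have h2 := Submodule.add_mem _ hB h1
  have e1 : x + ∑ k, a k * sp (r k) (b k) +
      ∑ k, (a k * sp (r k) (b k) + (v k * sp (q + 1) e + ∑ j, g k j * sp q (b' j))) =
      x + ((∑ k, v k) * sp (q + 1) e + ∑ j, (∑ k, g k j) * sp q (b' j)) := by
    rw [sum_add_distrib, sum_add_distrib, sum_mul]
    have e2 : ∑ j, (∑ k, g k j) * sp q (b' j) = ∑ k, ∑ j, g k j * sp q (b' j) := by
      rw [sum_comm]
      exact sum_congr rfl fun j _ => sum_mul _ _ _
    rw [e2]
    linear_combination P2 (∑ k, a k * sp (r k) (b k))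
  rwa [e1] at h2

end Pool.Agent.H92ND.Two
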