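import Pool.Agent.H92ND2.Stm

/-!
Part DN: the exceptional classes descend along `Sq⁰`.
-/

set_option autoImplicit false

namespace Pool.Agent.H92ND.Two

open Finset MvPolynomial Pool.Agent.W624.Stz Pool.Agent.Q171.ND3 Pool.Agent.Q171.ND3.St
  Pool.Agent.H92ND

namespace Dnaux

theorem sqC_pow2 (k s : ℕ) (x : P) (j : ℕ) : sqC k s (x ^ 2 ^ j) = sqC k s x ^ 2 ^ j := by
  induction j with
  | zero => simp
  | succ j ih => rw [pow_succ, pow_mul, sqC_sq, ih, ← pow_mul]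

theorem Cy_sqC {s t : ℕ} {x : P} (k : ℕ) (hx : Cy s t x) : Cy (s + k) (2 * t) (sqC k s x) :=
  ⟨C_sqC hx.mem, IsHom.sqC hx.hom, d_sqC k s hx.cyc⟩

end Dnaux

open Dnaux

theorem ex1_down {q m0 N : ℕ} (hG : Good m0 q) (hG' : Good m0 (q + 1)) (hN : 2 ^ m0 ∣ N) (k : ℕ)
    (h : Ex1 q (2 ^ k * N)) : Ex1 q N := by
  obtain ⟨x, hx, hB, h⟩ := h
  obtain ⟨u, hu, hxu⟩ := hG.surj hN k hx
  have hB' : u ∉ B q := fun hu0 => hB (B_cancel hxu (B_pow2 hu0 k))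
  refine ⟨u, hu, hB', ?_⟩
  have h1 : sqC 1 q x + sqC 1 q (u ^ 2 ^ k) ∈ B (q + 1) :=
    sqC_congr (k := 0) hx.mem hx.cyc (hu.pow2 k).mem (hu.pow2 k).cyc hxu
  have h2 := B_cancel (B_comm h1) h
  rw [sqC_pow2] at h2
  exact hG'.inj (Dvd.dvd.mul_left hN 2) hu.sq1 k h2

theorem ex2_down {q m0 N : ℕ} (hG : Good m0 q) (hG' : Good m0 (q + 2)) (hN : 2 ^ m0 ∣ N) (k : ℕ)
    (h : Ex2 q (2 ^ k * N)) : Ex2 q N := by
  obtain ⟨x, hx, hB, h⟩ := h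
  obtain ⟨u, hu, hxu⟩ := hG.surj hN k hx
  have hB' : u ∉ B q := fun hu0 => hB (B_cancel hxu (B_pow2 hu0 k))
  refine ⟨u, hu, hB', ?_⟩
  have h1 : sqC 1 q x + sqC 1 q (u ^ 2 ^ k) ∈ B (q + 1) :=
    sqC_congr (k := 0) hx.mem hx.cyc (hu.pow2 k).mem (hu.pow2 k).cyc hxu
  have h2 : sqC 1 (q + 1) (sqC 1 q x) + sqC 1 (q + 1) (sqC 1 q (u ^ 2 ^ k)) ∈ B (q + 2) :=
    sqC_congr (k := 0) hx.sq1.mem hx.sq1.cyc (hu.pow2 k).sq1.mem (hu.pow2 k).sq1.cyc h1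
  have h3 : sqC 2 q x + sqC 2 q (u ^ 2 ^ k) ∈ B (q + 2) :=
    sqC_congr (k := 1) hx.mem hx.cyc (hu.pow2 k).mem (hu.pow2 k).cyc hxu
  rw [sqC_pow2, sqC_pow2] at h2
  rw [sqC_pow2] at h3
  have h4 := frob_B _ h3
  rw [frob_apply, add_pow_char] at h4
  have h5 := Submodule.add_mem _ (Submodule.add_mem _ h2 h4) h
  have e : sqC 1 (q + 1) (sqC 1 q x) + sqC 1 (q + 1) (sqC 1 q u) ^ 2 ^ k
      + (sqC 2 q x ^ 2 + (sqC 2 q u ^ 2 ^ k) ^ 2)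
      + (sqC 1 (q + 1) (sqC 1 q x) + sqC 2 q x ^ 2)
      = (sqC 1 (q + 1) (sqC 1 q u) + sqC 2 q u ^ 2) ^ 2 ^ k := by
    rw [add_pow_char_pow, ← pow_mul, ← pow_mul, mul_comm 2 (2 ^ k)]
    linear_combination P2 (sqC 1 (q + 1) (sqC 1 q x)) + P2 (sqC 2 q x ^ 2)
  rw [e] at h5
  exact hG'.inj (N := 2 * (2 * N)) (Dvd.dvd.mul_left (Dvd.dvd.mul_left hN 2) 2)
    (hu.sq1.sq1.add (Cy_sqC 2 hu).sq) k h5

theorem exU_down {q m0 N : ℕ} (hG2 : Good m0 (q + 2)) (hG3 : Good m0 (q + 3))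
    (hG4 : Good m0 (q + 4)) (hN : 2 ^ m0 ∣ N) (k : ℕ) (h : ExU q (2 ^ k * N)) : ExU q N := by
  obtain ⟨x, hx, hB, h, hU⟩ := h
  obtain ⟨u, hu, hxu⟩ := hG2.surj hN k hx
  have hB' : u ∉ B (q + 2) := fun hu0 => hB (B_cancel hxu (B_pow2 hu0 k))
  refine ⟨u, hu, hB', ?_, ?_⟩
  · have h1 : sqC 1 (q + 2) x + sqC 1 (q + 2) (u ^ 2 ^ k) ∈ B (q + 3) :=
      sqC_congr (k := 0) hx.mem hx.cyc (hu.pow2 k).mem (hu.pow2 k).cyc hxu
    have h2 := B_cancel (B_comm h1) h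
    rw [sqC_pow2] at h2
    exact hG3.inj (Dvd.dvd.mul_left hN 2) hu.sq1 k h2
  · rintro ⟨t', y, ht, hy, hyu, h2⟩
    apply hU
    refine ⟨2 ^ k * t', y ^ 2 ^ k, by rw [← ht]; ring, hy.pow2 k, ?_, ?_⟩
    · rw [sqC_pow2]
      have h3 := Submodule.add_mem _ hxu (B_pow2 hyu k)
      have e : x + u ^ 2 ^ k + (u + sqC 1 (q + 1) y) ^ 2 ^ k = x + sqC 1 (q + 1) y ^ 2 ^ k := by
        rw [add_pow_char_pow]
        linear_combination P2 (u ^ 2 ^ k)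
      rwa [e] at h3
    · intro h3
      apply h2
      have h4 : sqC 2 (q + 2) x + sqC 2 (q + 2) (u ^ 2 ^ k) ∈ B (q + 4) :=
        sqC_congr (k := 1) hx.mem hx.cyc (hu.pow2 k).mem (hu.pow2 k).cyc hxu
      have h5 := B_cancel (B_comm h4) h3
      rw [sqC_pow2] at h5
      exact hG4.inj (Dvd.dvd.mul_left hN 2) (Cy_sqC 2 hu) k h5

theorem dn : StDN := by
  intro q m0 hq hG N k hN
  refine ⟨ex1_down (hG q hq (by omega)) (hG (q + 1) (by omega) (by omega)) hN k,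
    ex2_down (hG q hq (by omega)) (hG (q + 2) (by omega) (by omega)) hN k,
    exU_down (hG (q + 2) (by omega) (by omega)) (hG (q + 3) (by omega) (by omega))
      (hG (q + 4) (by omega) (by omega)) hN k⟩

end Pool.Agent.H92ND.Two
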