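import Pool.Agent.H92ND2.F2
import Pool.Agent.H92ND2.Dn

/-!
Part E2: the recursion for `Ex2`.
-/

set_option autoImplicit false

namespace Pool.Agent.H92ND.Two

open Finset MvPolynomial Pool.Agent.W624.Stz Pool.Agent.Q171.ND3 Pool.Agent.Q171.ND3.St
  Pool.Agent.H92ND F2aux Dnaux

namespace E2aux

theorem congr1 {s : ℕ} {x y : P} (hx : x ∈ St.C s) (hdx : d s x = 0) (hy : y ∈ St.C s)
    (hdy : d s y = 0) (h : x + y ∈ B s) : sqC 1 s x + sqC 1 s y ∈ B (s + 1) :=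
  sqC_congr (k := 0) hx hdx hy hdy h

theorem congr2 {s : ℕ} {x y : P} (hx : x ∈ St.C s) (hdx : d s x = 0) (hy : y ∈ St.C s)
    (hdy : d s y = 0) (h : x + y ∈ B s) : sqC 2 s x + sqC 2 s y ∈ B (s + 2) :=
  sqC_congr (k := 1) hx hdx hy hdy h

/-- the formula for `Sq¹ Sq¹ + (Sq²)²` on a class `w ≡ a h_m` -/
theorem e2_formula (hCA : StCA) (hF1 : StF1) {r m : ℕ} {a w : P} (ha : a ∈ St.C r)
    (hda : d r a = 0) (hw : w ∈ St.C (r + 1)) (hdw : d (r + 1) w = 0)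
    (h : w + a * hx r m ∈ B (r + 1))
    (hz : sqC 1 (r + 2) (sqC 1 (r + 1) w) + sqC 2 (r + 1) w ^ 2 ∈ B (r + 3)) :
    (sqC 1 (r + 1) (sqC 1 r a) + sqC 2 r a ^ 2) * sp (r + 2) (hh' (m + 2))
      + sqC 1 r a ^ 2 * sp (r + 1) (kk (m + 1)) + a ^ 4 * sp r (zz m) ∈ B (r + 3) := by
  obtain ⟨hv, hdv⟩ := mul_cyc ha hda (Cy_h m).mem (Cy_h m).cyc
  rw [sp_hh] at hv hdv
  have h1 := congr1 hw hdw hv hdv h
  have h3 := congr2 hw hdw hv hdv h
  have h2 := congr1 (C_sqC hw) (d_sqC 1 (r + 1) hdw) (C_sqC hv) (d_sqC 1 (r + 1) hdv) h1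
  rw [show r + 1 + 1 = r + 2 from rfl, show r + 2 + 1 = r + 3 from rfl] at h2
  rw [show r + 1 + 2 = r + 3 from rfl] at h3
  have h4 := frob_B _ h3
  rw [frob_apply, add_pow_char] at h4
  have h5 := hF1 r m a ha hda
  have h6 := frob_B _ (hCA r m a ha hda)
  rw [frob_apply, add_pow_char, add_pow_char, mul_pow, mul_pow, mul_pow, hx_sq, hx_sq, hx_sq] at h6
  have h7 := Submodule.add_mem _ (Submodule.add_mem _ h2 h4)
    (Submodule.add_mem _ (Submodule.add_mem _ h5 h6) hz)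
  refine B_eq ?_ h7
  rw [sp_hh, sp_kk]
  have e1 : r + 1 + 1 = r + 2 := rfl
  have e2 : m + 1 + 1 = m + 2 := rfl
  rw [e1, e2]
  generalize sqC 1 (r + 2) (sqC 1 (r + 1) w) = Z0
  generalize sqC 1 (r + 2) (sqC 1 (r + 1) (a * hx r m)) = Z1
  generalize sqC 2 (r + 1) (a * hx r m) = Z2
  generalize sqC 2 (r + 1) w = Z3
  generalize sqC 1 (r + 1) (sqC 1 r a) = Z4
  generalize sqC 2 r a = Z5
  generalize sqC 1 r a = Z6
  linear_combination (-1 : P) * P2 (Z0 + Z1 + Z2 ^ 2 + Z3 ^ 2)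

theorem one_cases {m0 c : ℕ} (hc : Odd c) : Cy 1 (2 ^ m0 * c) (if c = 1 then hh' m0 else 0) ∧
    ∀ y, Cy 1 (2 ^ m0 * c) y → y = 0 ∨ y = if c = 1 then hh' m0 else 0 := by
  by_cases h : c = 1
  · subst h
    rw [if_pos rfl, mul_one]
    exact ⟨Cy_h m0, fun y hy => one_line hy.mem hy.hom hy.cyc⟩
  · rw [if_neg h]
    exact ⟨Cy.zero _ _, fun y hy => Or.inl (one_line_zero hc h hy.mem hy.hom hy.cyc)⟩

end E2aux

open E2aux

theorem e2 (hCA : StCA) (hSF : StSF) (hDC : StDC1) (hF0 : StF0) (hF1 : StF1) : StE2 := by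
  intro r m0 hr hG
  choose K hK using fun c : ℕ => show ∃ K, Odd c → ∀ N, 0 < N → 2 ^ K ∣ N →
      (∀ i, 2 ≤ i → i + 1 ≤ r + 1 → ¬ (Nz i (2 ^ m0 * c) ∧ Nz (r + 1 - i) N)) →
      ∀ x, Cy (r + 1) (N + 2 ^ m0 * c) x → ∃ a, Cy r N a ∧
        x + a * sp r (if c = 1 then hh' m0 else 0) ∈ B (r + 1) from by
    by_cases hc : Odd c
    · obtain ⟨K, hK⟩ := hDC r (2 ^ m0 * c) hr (Nat.mul_pos (by positivity) hc.pos) _
        (one_cases hc).1 (one_cases hc).2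
      exact ⟨K, fun _ => hK⟩
    · exact ⟨0, fun h => absurd h hc⟩
  obtain ⟨K2, hK2⟩ := hSF (r + 2) (2 ^ (m0 + 2))
  refine ⟨fun c => K c + K2, fun c N hc hN hd hz => ?_⟩
  by_contra hcon
  push Not at hcon
  obtain ⟨hcon1, hcon2⟩ := hcon
  obtain ⟨w, hw, hwB, hz⟩ := hz
  have hcN : 2 ^ m0 * (c + N) = 2 ^ m0 * N + 2 ^ m0 * c := by ring
  rw [hcN] at hw
  obtain ⟨a, ha, hwa⟩ := hK c hc (2 ^ m0 * N) (by positivity)
    (Dvd.dvd.mul_left (dvd_trans (pow_dvd_pow 2 (Nat.le_add_right _ _)) hd) _)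
    (fun i h2 h3 h4 => hcon1 i h2 h3 h4.1 h4.2) w hw
  by_cases hc1 : c = 1
  · rw [if_pos hc1] at hwa
    apply hcon2
    have haB : a ∉ B r := fun h => hwB (B_cancel hwa (mulB_left h (Cy_h m0).mem (Cy_h m0).cyc))
    refine ⟨a, ha, haB, ?_⟩
    have hwa' : w + a * hx r m0 ∈ B (r + 1) := by rwa [← sp_hh]
    have h1 := e2_formula hCA hF1 ha.mem ha.cyc hw.mem hw.cyc hwa' hz
    have hC0 : Cy (r + 2) (2 * (2 * (2 ^ m0 * N))) (sqC 1 (r + 1) (sqC 1 r a) + sqC 2 r a ^ 2) :=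
      ha.sq1.sq1.add (Cy_sqC 2 ha).sq
    have hC1 : Cy (r + 1) (2 * (2 * (2 ^ m0 * N))) (sqC 1 r a ^ 2) := ha.sq1.sq
    have hC2 : Cy r (2 * (2 * (2 ^ m0 * N))) (a ^ 4) := by
      have := ha.sq.sq
      rwa [← pow_mul] at this
    have hD0 : Cy 1 (2 ^ (m0 + 2)) (hh' (m0 + 2)) := Cy_h (m0 + 2)
    have hD1 : Cy 2 (2 ^ (m0 + 2)) (kk (m0 + 1)) := (hF0 (m0 + 1)).1
    have hD2 : Cy 3 (2 ^ (m0 + 2)) (zz m0) := (hF0 m0).2.2.1
    have hkB : kk (m0 + 1) ∉ B 2 := (hF0 (m0 + 1)).2.1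
    have h2 := hK2 (2 * (2 * (2 ^ m0 * N))) (by positivity)
      (Dvd.dvd.mul_left (Dvd.dvd.mul_left (Dvd.dvd.mul_left
        (dvd_trans (pow_dvd_pow 2 (Nat.le_add_left _ _)) hd) _) _) _)
      (Fin 3) ![r + 2, r + 1, r] ![1, 2, 3]
      ![sqC 1 (r + 1) (sqC 1 r a) + sqC 2 r a ^ 2, sqC 1 r a ^ 2, a ^ 4]
      ![hh' (m0 + 2), kk (m0 + 1), zz m0] (by
        intro k
        fin_cases k
        · exact ⟨by simp, by simp, rfl, hC0, hD0⟩
        · exact ⟨by simp, by simp, rfl, hC1, hD1⟩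
        · exact ⟨hr, by simp, rfl, hC2, hD2⟩) (by
        rw [Fin.sum_univ_three]
        exact h1) (r + 1) 2 rfl (by
        intro ε hε hB
        have h0 : ε 0 = 0 := hε 0 (by simp)
        have h2 : ε 2 = 0 := hε 2 (by simp)
        rw [Fin.sum_univ_three, h0, h2, zero_smul, zero_smul, zero_add, add_zero] at hB
        have h1 : ε 1 = 0 := by
          by_contra h
          have h' : ε 1 = 1 := by
            generalize ε 1 = z at h
            revert z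
            decide
          rw [h', one_smul] at hB
          exact hkB hB
        funext k
        fin_cases k
        · exact h0
        · exact h1
        · exact h2) 1 rfl
    exact ((hG (r + 1) (by omega) (by omega)) (2 * (2 ^ m0 * N))
      (Dvd.dvd.mul_left (dvd_mul_right _ _) _)).1 _ ha.sq1 h2
  · rw [if_neg hc1, map_zero, mul_zero, add_zero] at hwa
    exact hwB hwa

end Pool.Agent.H92ND.Two
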