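import Pool.Agent.H92ND2.Stm

/-!
Recursion for `ExU`.
-/

set_option autoImplicit false

namespace Pool.Agent.H92ND.Two

open Finset MvPolynomial Pool.Agent.W624.Stz Pool.Agent.Q171.ND3 Pool.Agent.Q171.ND3.St
  Pool.Agent.H92ND

/-- the squares of sums -/
theorem sq_sum {k s t : ℕ} {ι : Type*} (S : Finset ι) (x : ι → P) (hx : ∀ i ∈ S, Cy s t (x i)) :
    sqC (k + 1) s (∑ i ∈ S, x i) + ∑ i ∈ S, sqC (k + 1) s (x i) ∈ B (s + (k + 1)) := by
  classical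
  induction S using Finset.induction_on with
  | empty =>
    rw [sum_empty, sum_empty, add_zero]
    exact sqC_B (Submodule.zero_mem _)
  | insert i S hi ih =>
    have h1 := ih fun j hj => hx j (mem_insert_of_mem hj)
    rw [sum_insert hi, sum_insert hi]
    have hi' := hx i (mem_insert_self _ _)
    have hS : Cy s t (∑ j ∈ S, x j) := by
      refine Finset.sum_induction _ (fun x => Cy s t x) (fun _ _ h h' => h.add h') (Cy.zero _ _)
        fun j hj => hx j (mem_insert_of_mem hj)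
    have h2 := sqC_add_B (k := k) hi'.mem hi'.cyc hS.mem hS.cyc
    have h3 := Submodule.add_mem _ h2 h1
    have e : sqC (k + 1) s (x i + ∑ j ∈ S, x j) + (sqC (k + 1) s (x i) + sqC (k + 1) s (∑ j ∈ S, x j))
        + (sqC (k + 1) s (∑ j ∈ S, x j) + ∑ j ∈ S, sqC (k + 1) s (x j))
        = sqC (k + 1) s (x i + ∑ j ∈ S, x j) + (sqC (k + 1) s (x i) + ∑ j ∈ S, sqC (k + 1) s (x j)) := by
      linear_combination P2 (sqC (k + 1) s (∑ j ∈ S, x j))
    rwa [e] at h3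

theorem zmod_sq (c : ZMod 2) : c ^ 2 = c := by revert c; decide

/-- squares of linear combinations -/
theorem lin_sq {n : ℕ} (ε : Fin n → ZMod 2) (b : Fin n → P) :
    ∑ j, ε j • b j ^ 2 = (∑ j, ε j • b j) ^ 2 := by
  have h1 : (∑ j, ε j • b j) ^ 2 = frob (∑ j, ε j • b j) := rfl
  rw [h1, map_sum]
  refine sum_congr rfl fun j _ => ?_
  rw [map_smul]
  rfl

/-- squares of independent classes are independent -/
theorem indep_sq {m0 c n : ℕ} (hG : Good m0 2) (hc : 2 ^ m0 ∣ c) {b : Fin n → P}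
    (hb : ∀ j, Cy 2 c (b j)) (hind : ∀ ε : Fin n → ZMod 2, ∑ j, ε j • b j ∈ B 2 → ε = 0)
    (ε : Fin n → ZMod 2) (h : ∑ j, ε j • b j ^ 2 ∈ B 2) : ε = 0 := by
  rw [lin_sq] at h
  apply hind
  refine (hG c hc).1 _ ?_ h
  refine Finset.sum_induction _ (fun x => Cy 2 c x) (fun _ _ h h' => h.add h') (Cy.zero _ _)
    fun j _ => ?_
  have : ε j = 0 ∨ ε j = 1 := by generalize ε j = a; revert a; decide
  rcases this with h | h
  · rw [h, zero_smul]; exact Cy.zero _ _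
  · rw [h, one_smul]; exact hb j

theorem Cy.sumj {s t : ℕ} {ι : Type*} (S : Finset ι) (x : ι → P) (hx : ∀ i ∈ S, Cy s t (x i)) :
    Cy s t (∑ i ∈ S, x i) :=
  Finset.sum_induction _ (fun x => Cy s t x) (fun _ _ h h' => h.add h') (Cy.zero _ _) hx

theorem Cy.sqk2 {s t : ℕ} {x : P} (hx : Cy s t x) : Cy (s + 2) (2 * t) (sqC 2 s x) :=
  ⟨C_sqC (k := 2) (s := s) hx.mem, IsHom.sqC (k := 2) (s := s) hx.hom, d_sqC 2 s hx.cyc⟩

/-- the case `c ≠ 1` -/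
theorem eu_ne (hSF : StSF) (hBS : StBS) (hDC : StDC2) (q m0 : ℕ) (hq : 1 ≤ q)
    (hG : ∀ i, 1 ≤ i → i ≤ q + 4 → Good m0 i) (c : ℕ) (hc : Odd c) (hc1 : c ≠ 1) :
    ∃ K : ℕ, ∀ N, 0 < N → 2 ^ K ∣ N → ExU q (2 ^ m0 * (c + N)) →
    (∃ i, 3 ≤ i ∧ i + 1 ≤ q + 2 ∧ Nz i (2 ^ m0 * c) ∧ Nz (q + 2 - i) (2 ^ m0 * N)) ∨
      Ex1 q (2 ^ m0 * N) := by
  obtain ⟨n, b, hb, hspan, hind⟩ := (hBS 2 (2 ^ m0 * c)).1
  have hcp : 0 < 2 ^ m0 * c := Nat.mul_pos (by positivity) hc.pos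
  obtain ⟨K1, hK1⟩ := hDC q (2 ^ m0 * c) hq hcp 0 (Cy.zero _ _)
    (fun y hy => Or.inl (one_line_zero hc hc1 hy.mem hy.hom hy.cyc)) n b hb hspan
  obtain ⟨K2, hK2⟩ := hSF (q + 2) (2 * (2 ^ m0 * c))
  refine ⟨K1 + K2, fun N hN hd hex => ?_⟩
  obtain ⟨y, hy, hyB, hsq, _⟩ := hex
  by_contra hcon
  push Not at hcon
  obtain ⟨hcon1, hcon2⟩ := hcon
  have hNp : 0 < 2 ^ m0 * N := by positivity
  rw [show 2 ^ m0 * (c + N) = 2 ^ m0 * N + 2 ^ m0 * c by ring] at hy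
  obtain ⟨a, g, ha, hg, hB⟩ := hK1 (2 ^ m0 * N) hNp
    (Dvd.dvd.mul_left (dvd_trans (pow_dvd_pow 2 (Nat.le_add_right _ _)) hd) _)
    (fun i h1 h2 h3 => hcon1 i h1 h2 h3.1 h3.2) y hy
  rw [map_zero, mul_zero, zero_add] at hB
  have hterm : ∀ j, Cy (q + 2) (2 ^ m0 * N + 2 ^ m0 * c) (g j * sp q (b j)) := fun j =>
    (hg j).prod (hb j)
  have hY := Cy.sumj univ (fun j => g j * sp q (b j)) (fun j _ => hterm j)
  have h1 : sqC 1 (q + 2) y + sqC 1 (q + 2) (∑ j, g j * sp q (b j)) ∈ B (q + 3) :=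
    sqC_congr (k := 0) hy.mem hy.cyc hY.mem hY.cyc hB
  have h2 : sqC 1 (q + 2) (∑ j, g j * sp q (b j)) + ∑ j, sqC 1 (q + 2) (g j * sp q (b j)) ∈
      B (q + 3) := sq_sum (k := 0) univ _ (fun j _ => hterm j)
  have h3 : sqC 1 (q + 2) (∑ j, g j * sp q (b j)) ∈ B (q + 3) := B_cancel (B_comm h1) hsq
  have h4 : ∑ j, sqC 1 (q + 2) (g j * sp q (b j)) ∈ B (q + 3) := B_cancel (B_comm h2) h3
  have h5 : ∑ j, sqC 1 (q + 2) (g j * sp q (b j)) = ∑ j, sqC 1 q (g j) * sp (q + 1) (b j ^ 2)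
      + ∑ j, g j ^ 2 * sp q (sqC 1 2 (b j)) := by
    rw [← sum_add_distrib]
    exact sum_congr rfl fun j _ => cartan1 (hg j).mem (hg j).cyc (hb j).cyc
  rw [h5] at h4
  have hNd : 2 ^ K2 ∣ 2 * (2 ^ m0 * N) := Dvd.dvd.mul_left (Dvd.dvd.mul_left
    (dvd_trans (pow_dvd_pow 2 (Nat.le_add_left _ _)) hd) _) _
  have h6 := hK2 (2 * (2 ^ m0 * N)) (by positivity) hNd (Fin n ⊕ Fin n)
    (Sum.elim (fun _ => q + 1) (fun _ => q)) (Sum.elim (fun _ => 2) (fun _ => 3))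
    (Sum.elim (fun j => sqC 1 q (g j)) (fun j => g j ^ 2))
    (Sum.elim (fun j => b j ^ 2) (fun j => sqC 1 2 (b j))) (by
      rintro (j | j)
      · exact ⟨by simp, by simp, by simp, (hg j).sq1, (hb j).sq⟩
      · exact ⟨by simpa using hq, by simp, by simp, (hg j).sq, (hb j).sq1⟩)
    (by
      rw [Fintype.sum_sum_type]
      exact h4) (q + 1) 2 (by ring) (by
      intro ε hε hsum
      rw [Fintype.sum_sum_type] at hsum
      have h7 : ∀ j : Fin n, ε (Sum.inr j) = 0 := fun j => hε _ (by simp)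
      have h8 : ∑ j, ε (Sum.inl j) • b j ^ 2 ∈ B 2 := by
        have e : ∑ j, ε (Sum.inr j) • (Sum.elim (fun j => b j ^ 2) (fun j => sqC 1 2 (b j))
            (Sum.inr j : Fin n ⊕ Fin n) : P) = 0 := by
          refine sum_eq_zero fun j _ => ?_
          rw [h7 j, zero_smul]
        rw [e, add_zero] at hsum
        exact hsum
      have h9 := indep_sq (hG 2 (by norm_num) (by omega)) (dvd_mul_right _ _) hb hind
        (fun j => ε (Sum.inl j)) h8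
      funext k
      rcases k with j | j
      · exact congrFun h9 j
      · exact h7 j)
  have h7 : ∀ j, g j ∈ B q := by
    intro j
    by_contra hgj
    exact hcon2 ⟨g j, hg j, hgj, h6 (Sum.inl j) rfl⟩
  apply hyB
  refine B_cancel hB (Submodule.sum_mem _ fun j _ => ?_)
  exact mulB_left (h7 j) (hb j).mem (hb j).cyc

/-- the case `c = 1` -/
theorem eu_one (hSF : StSF) (hBS : StBS) (hDC : StDC2) (hF0 : StF0) (hF2 : StF2) (q m : ℕ)
    (hq : 1 ≤ q) (hG : ∀ i, 1 ≤ i → i ≤ q + 4 → Good (m + 1) i) :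
    ∃ K : ℕ, ∀ N, 0 < N → 2 ^ K ∣ N → ExU q (2 ^ (m + 1) * (1 + N)) →
    (∃ i, 3 ≤ i ∧ i + 1 ≤ q + 2 ∧ Nz i (2 ^ (m + 1) * 1) ∧ Nz (q + 2 - i) (2 ^ (m + 1) * N)) ∨
      Ex1 q (2 ^ (m + 1) * N) ∨ Ex2 q (2 ^ (m + 1) * N) := by
  obtain ⟨hkk, hkkB, hzz, hk4, hkk2, hsqh⟩ := hF0 m
  obtain ⟨n, b, hb0, hb, hspan, hind⟩ := (hBS 2 (2 ^ (m + 1))).2 (kk m) hkk hkkB
  obtain ⟨K1, hK1⟩ := hDC q (2 ^ (m + 1)) hq (by positivity) (hh' (m + 1)) (Cy_h _)
    (fun y hy => one_line hy.mem hy.hom hy.cyc) (n + 1) b hb hspan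
  obtain ⟨K2, hK2⟩ := hSF (q + 2) (2 * 2 ^ (m + 1))
  obtain ⟨K3, hK3⟩ := hSF (q + 3) (2 * 2 ^ (m + 1))
  refine ⟨K1 + K2 + K3 + 1, fun N hN hd hex => ?_⟩
  obtain ⟨y, hy, hyB, hsq, hno⟩ := hex
  by_contra hcon
  push Not at hcon
  obtain ⟨hcon1, hcon2, hcon3⟩ := hcon
  obtain ⟨N', rfl⟩ : 2 ∣ N := dvd_trans (by
    rw [pow_succ]; exact dvd_mul_left _ _) hd
  have hN' : 0 < N' := by omega
  have hdK : ∀ K, K ≤ K1 + K2 + K3 + 1 → 2 ^ K ∣ 2 * N' := fun K hK =>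
    dvd_trans (pow_dvd_pow 2 hK) hd
  have hGd : 2 ^ (m + 1) ∣ 2 ^ (m + 1) * (2 * N') := dvd_mul_right _ _
  rw [mul_one] at hcon1
  rw [show 2 ^ (m + 1) * (1 + 2 * N') = 2 ^ (m + 1) * (2 * N') + 2 ^ (m + 1) by ring] at hy
  obtain ⟨a, g, ha, hg, hB⟩ := hK1 (2 ^ (m + 1) * (2 * N')) (by positivity)
    (Dvd.dvd.mul_left (hdK K1 (by omega)) _)
    (fun i h1 h2 h3 => hcon1 i h1 h2 h3.1 h3.2) y hy
  have hterm : ∀ j, Cy (q + 2) (2 ^ (m + 1) * (2 * N') + 2 ^ (m + 1)) (g j * sp q (b j)) :=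
    fun j => (hg j).prod (hb j)
  have hta : Cy (q + 2) (2 ^ (m + 1) * (2 * N') + 2 ^ (m + 1)) (a * sp (q + 1) (hh' (m + 1))) :=
    ha.prod (Cy_h _)
  have hY := Cy.sumj univ (fun j => g j * sp q (b j)) (fun j _ => hterm j)
  have h1 : sqC 1 (q + 2) y + sqC 1 (q + 2) (a * sp (q + 1) (hh' (m + 1))
      + ∑ j, g j * sp q (b j)) ∈ B (q + 3) :=
    sqC_congr (k := 0) hy.mem hy.cyc (hta.add hY).mem (hta.add hY).cyc hB
  have h1' : sqC 1 (q + 2) (a * sp (q + 1) (hh' (m + 1)) + ∑ j, g j * sp q (b j))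
      + (sqC 1 (q + 2) (a * sp (q + 1) (hh' (m + 1)))
        + sqC 1 (q + 2) (∑ j, g j * sp q (b j))) ∈ B (q + 3) :=
    sqC_add_B (k := 0) hta.mem hta.cyc hY.mem hY.cyc
  have h2 : sqC 1 (q + 2) (∑ j, g j * sp q (b j)) + ∑ j, sqC 1 (q + 2) (g j * sp q (b j)) ∈
      B (q + 3) := sq_sum (k := 0) univ _ (fun j _ => hterm j)
  have h3 := B_cancel (B_comm h1) hsq
  have h3' := B_cancel (B_comm h1') h3
  have h4 : sqC 1 (q + 2) (a * sp (q + 1) (hh' (m + 1)))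
      + ∑ j, sqC 1 (q + 2) (g j * sp q (b j)) ∈ B (q + 3) := by
    have h := Submodule.add_mem _ h3' h2
    have e : sqC 1 (q + 2) (a * sp (q + 1) (hh' (m + 1))) + sqC 1 (q + 2) (∑ j, g j * sp q (b j))
        + (sqC 1 (q + 2) (∑ j, g j * sp q (b j)) + ∑ j, sqC 1 (q + 2) (g j * sp q (b j)))
        = sqC 1 (q + 2) (a * sp (q + 1) (hh' (m + 1)))
          + ∑ j, sqC 1 (q + 2) (g j * sp q (b j)) := by
      linear_combination P2 (sqC 1 (q + 2) (∑ j, g j * sp q (b j)))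
    rwa [e] at h
  have h5 : ∑ j, sqC 1 (q + 2) (g j * sp q (b j)) = ∑ j, sqC 1 q (g j) * sp (q + 1) (b j ^ 2)
      + ∑ j, g j ^ 2 * sp q (sqC 1 2 (b j)) := by
    rw [← sum_add_distrib]
    exact sum_congr rfl fun j _ => cartan1 (hg j).mem (hg j).cyc (hb j).cyc
  have h5' : sqC 1 (q + 2) (a * sp (q + 1) (hh' (m + 1)))
      = sqC 1 (q + 1) a * sp (q + 2) (hh' (m + 1) ^ 2) + a ^ 2 * sp (q + 1) (b 0 ^ 2) := by
    have := cartan1 (q := 1) ha.mem ha.cyc (Cy_h (m + 1)).cyc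
    rw [hb0, hkk2, ← (hF0 (m + 1)).2.2.2.2.2]
    exact this
  have h5'' : a ^ 2 * sp (q + 1) (b 0 ^ 2) + ∑ j, sqC 1 q (g j) * sp (q + 1) (b j ^ 2)
      = ∑ j, ((if j = 0 then a ^ 2 else 0) + sqC 1 q (g j)) * sp (q + 1) (b j ^ 2) := by
    simp only [add_mul]
    rw [sum_add_distrib]
    congr 1
    simp only [ite_mul, zero_mul]
    rw [sum_ite_eq' univ (0 : Fin (n + 1)), if_pos (mem_univ _)]
  have h4' : sqC 1 (q + 1) a * sp (q + 2) (hh' (m + 1) ^ 2)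
      + (∑ j, ((if j = 0 then a ^ 2 else 0) + sqC 1 q (g j)) * sp (q + 1) (b j ^ 2)
      + ∑ j, g j ^ 2 * sp q (sqC 1 2 (b j))) ∈ B (q + 3) := by
    rw [h5, h5'] at h4
    rw [← h5'']
    have e : sqC 1 (q + 1) a * sp (q + 2) (hh' (m + 1) ^ 2) + a ^ 2 * sp (q + 1) (b 0 ^ 2)
        + (∑ j, sqC 1 q (g j) * sp (q + 1) (b j ^ 2) + ∑ j, g j ^ 2 * sp q (sqC 1 2 (b j)))
        = sqC 1 (q + 1) a * sp (q + 2) (hh' (m + 1) ^ 2) + (a ^ 2 * sp (q + 1) (b 0 ^ 2)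
        + ∑ j, sqC 1 q (g j) * sp (q + 1) (b j ^ 2) + ∑ j, g j ^ 2 * sp q (sqC 1 2 (b j))) := by
      ring
    rwa [e] at h4
  have hcy0 : ∀ j, Cy (q + 1) (2 * (2 ^ (m + 1) * (2 * N')))
      ((if j = 0 then a ^ 2 else 0) + sqC 1 q (g j)) := by
    intro j
    refine Cy.add ?_ (hg j).sq1
    split_ifs
    · exact ha.sq
    · exact Cy.zero _ _
  have h6 := hK2 (2 * (2 ^ (m + 1) * (2 * N'))) (by positivity)
    (Dvd.dvd.mul_left (Dvd.dvd.mul_left (hdK K2 (by omega)) _) _)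
    (Option (Fin (n + 1) ⊕ Fin (n + 1)))
    (fun k => k.elim (q + 2) (Sum.elim (fun _ => q + 1) (fun _ => q)))
    (fun k => k.elim 1 (Sum.elim (fun _ => 2) (fun _ => 3)))
    (fun k => k.elim (sqC 1 (q + 1) a) (Sum.elim (fun j => (if j = 0 then a ^ 2 else 0)
      + sqC 1 q (g j)) (fun j => g j ^ 2)))
    (fun k => k.elim (hh' (m + 1) ^ 2) (Sum.elim (fun j => b j ^ 2) (fun j => sqC 1 2 (b j)))) (by
      rintro (_ | j | j)
      · exact ⟨by simp, by simp, by simp, ha.sq1, (Cy_h _).sq⟩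
      · exact ⟨by simp, by simp, by simp, hcy0 j, (hb j).sq⟩
      · exact ⟨by simpa using hq, by simp, by simp, (hg j).sq, (hb j).sq1⟩)
    (by
      rw [Fintype.sum_option, Fintype.sum_sum_type]
      exact h4') (q + 1) 2 (by ring) (by
      intro ε hε hsum
      rw [Fintype.sum_option, Fintype.sum_sum_type] at hsum
      have h7 : ∀ j : Fin (n + 1), ε (some (Sum.inr j)) = 0 := fun j => hε _ (by simp)
      have h7' : ε none = 0 := hε _ (by simp)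
      have h8 : ∑ j, ε (some (Sum.inl j)) • b j ^ 2 ∈ B 2 := by
        have e : ∑ j : Fin (n + 1), ε (some (Sum.inr j)) • (sqC 1 2 (b j)) = 0 := by
          refine sum_eq_zero fun j _ => ?_
          rw [h7 j, zero_smul]
        rw [h7', zero_smul, zero_add] at hsum
        have e2 : (∑ j, ε (some (Sum.inl j)) • b j ^ 2)
            + ∑ j : Fin (n + 1), ε (some (Sum.inr j)) • (sqC 1 2 (b j)) ∈ B 2 := hsum
        rw [e, add_zero] at e2
        exact e2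
      have h9 := indep_sq (hG 2 (by norm_num) (by omega)) dvd_rfl hb hind
        (fun j => ε (some (Sum.inl j))) h8
      funext k
      rcases k with _ | j | j
      · exact h7'
      · exact congrFun h9 j
      · exact h7 j)
  have h7 : ∀ j, j ≠ 0 → g j ∈ B q := by
    intro j hj
    by_contra hgj
    have h8 : (if j = 0 then a ^ 2 else 0) + sqC 1 q (g j) ∈ B (q + 1) :=
      h6 (some (Sum.inl j)) rfl
    rw [if_neg hj, zero_add] at h8
    exact hcon2 ⟨g j, hg j, hgj, h8⟩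
  have h8 : a ^ 2 + sqC 1 q (g 0) ∈ B (q + 1) := by
    have := h6 (some (Sum.inl 0)) rfl
    simpa using this
  -- the class `w`
  obtain ⟨w, hw, hgw⟩ := (hG q hq (by omega) (2 ^ (m + 1) * N') (dvd_mul_right _ _)).2 (g 0) (by
    rw [show 2 * (2 ^ (m + 1) * N') = 2 ^ (m + 1) * (2 * N') by ring]; exact hg 0)
  have hSw : Cy (q + 1) (2 ^ (m + 1) * (2 * N')) (sqC 1 q w) := by
    have := hw.sq1
    rwa [show 2 * (2 ^ (m + 1) * N') = 2 ^ (m + 1) * (2 * N') by ring] at this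
  have h9 : sqC 1 q (g 0) + sqC 1 q (w ^ 2) ∈ B (q + 1) :=
    sqC_congr (k := 0) (hg 0).mem (hg 0).cyc hw.sq.mem hw.sq.cyc hgw
  rw [sqC_sq] at h9
  have h10 : a + sqC 1 q w ∈ B (q + 1) := by
    refine (hG (q + 1) (by omega) (by omega) _ hGd).1 _ (ha.add hSw) ?_
    have h := Submodule.add_mem _ h8 h9
    have e : a ^ 2 + sqC 1 q (g 0) + (sqC 1 q (g 0) + sqC 1 q w ^ 2) = (a + sqC 1 q w) ^ 2 := by
      rw [add_pow_char]
      linear_combination P2 (sqC 1 q (g 0))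
    rwa [e] at h
  set Y' : P := sqC 1 q w * sp (q + 1) (hh' (m + 1)) + w ^ 2 * sp q (kk m) with hY'
  have hyY : y + Y' ∈ B (q + 2) := by
    have t1 : (a + sqC 1 q w) * sp (q + 1) (hh' (m + 1)) ∈ B (q + 2) :=
      mulB_left (p := q + 1) (q := 1) h10 (Cy_h (m + 1)).mem (Cy_h (m + 1)).cyc
    have t2 : (g 0 + w ^ 2) * sp q (b 0) ∈ B (q + 2) :=
      mulB_left (p := q) (q := 2) hgw (hb 0).mem (hb 0).cyc
    have t3 : ∑ j : Fin n, g j.succ * sp q (b j.succ) ∈ B (q + 2) :=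
      Submodule.sum_mem _ fun j _ =>
        mulB_left (p := q) (q := 2) (h7 _ (Fin.succ_ne_zero j)) (hb _).mem (hb _).cyc
    rw [Fin.sum_univ_succ] at hB
    have h := Submodule.add_mem _ (Submodule.add_mem _ (Submodule.add_mem _ hB t1) t2) t3
    have e : y + (a * sp (q + 1) (hh' (m + 1)) + (g 0 * sp q (b 0)
        + ∑ j : Fin n, g j.succ * sp q (b j.succ))) + (a + sqC 1 q w) * sp (q + 1) (hh' (m + 1))
        + (g 0 + w ^ 2) * sp q (b 0) + ∑ j : Fin n, g j.succ * sp q (b j.succ) = y + Y' := by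
      rw [hY', ← hb0]
      linear_combination P2 (a * sp (q + 1) (hh' (m + 1))) + P2 (g 0 * sp q (b 0))
        + P2 (∑ j : Fin n, g j.succ * sp q (b j.succ))
    rwa [e] at h
  have hwB : w ∉ B q := by
    intro hwB
    apply hyB
    refine B_cancel hyY (Submodule.add_mem _ ?_ ?_)
    · exact mulB_left (p := q + 1) (q := 1) (sqC_B (k := 0) hwB) (Cy_h (m + 1)).mem
        (Cy_h (m + 1)).cyc
    · exact mulB_left (p := q) (q := 2) (frob_B _ hwB) hkk.mem hkk.cyc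
  have hcart : sqC 1 (q + 1) (w * sp q (hh' m)) = Y' := by
    rw [cartan1 (q := 1) hw.mem hw.cyc (Cy_h m).cyc, hsqh, hY']
    have e : (hh' m) ^ 2 = hh' (m + 1) := by rw [hh', hh', ← pow_mul, ← pow_succ]
    rw [e]
  have hx : Cy (q + 1) (2 ^ (m + 1) * N' + 2 ^ m) (w * sp q (hh' m)) := hw.prod (Cy_h m)
  have hY'c : Cy (q + 2) (2 ^ (m + 1) * (2 * N') + 2 ^ (m + 1)) Y' := by
    rw [← hcart]
    have := hx.sq1
    rwa [show 2 * (2 ^ (m + 1) * N' + 2 ^ m) = 2 ^ (m + 1) * (2 * N') + 2 ^ (m + 1) by ring] at this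
  -- `Sq² y = 0`
  have hs2 : sqC 2 (q + 2) y ∈ B (q + 4) := by
    by_contra hs2
    refine hno ⟨2 ^ (m + 1) * N' + 2 ^ m, w * sp q (hh' m), by ring, hx, ?_, hs2⟩
    rw [hcart]
    exact hyY
  have h11 : sqC 2 (q + 2) y + sqC 2 (q + 2) Y' ∈ B (q + 4) :=
    sqC_congr (k := 1) hy.mem hy.cyc hY'c.mem hY'c.cyc hyY
  have h12 : sqC 2 (q + 2) Y' ∈ B (q + 4) := B_cancel (B_comm h11) hs2
  have h13 := B_cancel (B_comm (hF2 q m w hw.mem hw.cyc)) h12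
  have hkk' := (hF0 (m + 1)).1
  have hkkB' := (hF0 (m + 1)).2.1
  have c1 : Cy (q + 3) (2 * (2 ^ (m + 1) * (2 * N'))) (sqC 2 (q + 1) (sqC 1 q w)) :=
    Cy.sqk2 hSw
  have c2 : Cy (q + 2) (2 * (2 ^ (m + 1) * (2 * N')))
      (sqC 1 (q + 1) (sqC 1 q w) + sqC 2 q w ^ 2) := by
    refine hSw.sq1.add ?_
    have h : Cy (q + 2) (2 * (2 ^ (m + 1) * N')) (sqC 2 q w) := Cy.sqk2 hw
    have := h.sq
    rwa [show 2 * (2 * (2 ^ (m + 1) * N')) = 2 * (2 ^ (m + 1) * (2 * N')) by ring] at this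
  have c4 : Cy q (2 * (2 ^ (m + 1) * (2 * N'))) (w ^ 4) := by
    have := hw.pow2 2
    rwa [show 2 ^ 2 * (2 ^ (m + 1) * N') = 2 * (2 ^ (m + 1) * (2 * N')) by ring] at this
  have hpw : 2 * 2 ^ (m + 1) = 2 ^ (m + 2) := by ring
  have h14 := hK3 (2 * (2 ^ (m + 1) * (2 * N'))) (by positivity)
    (Dvd.dvd.mul_left (Dvd.dvd.mul_left (hdK K3 (by omega)) _) _) (Fin 4)
    ![q + 3, q + 2, q + 1, q] ![1, 2, 3, 4]
    ![sqC 2 (q + 1) (sqC 1 q w), sqC 1 (q + 1) (sqC 1 q w) + sqC 2 q w ^ 2, sqC 1 q w ^ 2, w ^ 4]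
    ![hh' (m + 2), kk (m + 1), zz m, k4 m] (by
      rw [hpw]
      intro k
      fin_cases k
      · exact ⟨by simp, by simp, by simp, c1, Cy_h _⟩
      · exact ⟨by simp, by simp, by simp, c2, hkk'⟩
      · exact ⟨by simp, by simp, by simp, hSw.sq, hzz⟩
      · exact ⟨by simpa using hq, by simp, by simp, c4, hk4⟩)
    (by
      rw [Fin.sum_univ_four]
      exact h13) (q + 2) 2 (by ring) (by
      intro ε hε hsum
      rw [Fin.sum_univ_four] at hsum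
      have e0 : ε 0 = 0 := hε 0 (by simp)
      have e2 : ε 2 = 0 := hε 2 (by simp)
      have e3 : ε 3 = 0 := hε 3 (by simp)
      rw [e0, e2, e3, zero_smul, zero_smul, zero_smul, zero_add, add_zero, add_zero] at hsum
      have e1 : ε 1 = 0 := by
        by_contra h
        have h1 : ε 1 = 1 := by
          revert h; generalize ε 1 = a; revert a; decide
        rw [h1, one_smul] at hsum
        exact hkkB' hsum
      funext k
      fin_cases k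
      · exact e0
      · exact e1
      · exact e2
      · exact e3) 1 rfl
  have h15 : sqC 1 (q + 1) (sqC 1 q w) + sqC 2 q w ^ 2 ∈ B (q + 2) := h14
  refine hcon3 ⟨w ^ 2, ?_, fun h => hwB ?_, ?_⟩
  · have := hw.sq
    rwa [show 2 * (2 ^ (m + 1) * N') = 2 ^ (m + 1) * (2 * N') by ring] at this
  · exact (hG q hq (by omega) (2 ^ (m + 1) * N') (dvd_mul_right _ _)).1 _ hw h
  · have h := frob_B _ h15
    rw [frob_apply, add_pow_char] at h
    rw [sqC_sq, sqC_sq, sqC_sq]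
    exact h

/-- the recursion for `ExU` -/
theorem eu (hSF : StSF) (hBS : StBS) (hDC : StDC2) (hF0 : StF0) (hF2 : StF2) : StEU := by
  intro q m0 hq hm0 hG
  choose K hK using fun c : ℕ => show ∃ K : ℕ, Odd c → ∀ N, 0 < N → 2 ^ K ∣ N →
      ExU q (2 ^ m0 * (c + N)) →
      (∃ i, 3 ≤ i ∧ i + 1 ≤ q + 2 ∧ Nz i (2 ^ m0 * c) ∧ Nz (q + 2 - i) (2 ^ m0 * N)) ∨
        Ex1 q (2 ^ m0 * N) ∨ Ex2 q (2 ^ m0 * N) from by
    by_cases hc : Odd c
    · by_cases hc1 : c = 1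
      · subst hc1
        obtain ⟨m, rfl⟩ : ∃ m, m0 = m + 1 := ⟨m0 - 1, by omega⟩
        obtain ⟨K, hK⟩ := eu_one hSF hBS hDC hF0 hF2 q m hq hG
        exact ⟨K, fun _ => hK⟩
      · obtain ⟨K, hK⟩ := eu_ne hSF hBS hDC q m0 hq hG c hc hc1
        refine ⟨K, fun _ N hN hd hex => ?_⟩
        rcases hK N hN hd hex with h | h
        · exact Or.inl h
        · exact Or.inr (Or.inl h)
    · exact ⟨0, fun h => absurd h hc⟩
  exact ⟨K, fun c N hc hN hd hex => hK c hc N hN hd hex⟩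

end Pool.Agent.H92ND.Two
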