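import Pool.Agent.H92ND2.Stm

/-!
Parts F0 and F1: the cocycles `h_m h_m`, `h_m h_m h_{m+1} + h_{m+1} h_m h_m`, `h_m h_m h_m h_m`, and
`Sq¹ Sq¹ (a h_m)`.
-/

set_option autoImplicit false
set_option linter.unusedSectionVars false

namespace Pool.Agent.H92ND.Two

open Finset MvPolynomial Pool.Agent.W624.Stz Pool.Agent.Q171.ND3 Pool.Agent.Q171.ND3.St
  Pool.Agent.H92ND

theorem sp_hh (p m : ℕ) : sp p (hh' m) = hx p m := by
  rw [hh', map_pow, sp_X, add_zero, hx]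

theorem sp_hx (p q m : ℕ) : sp p (hx q m) = hx (p + q) m := by
  rw [hx, map_pow, sp_X, hx]

theorem hh_eq (m : ℕ) : hh' m = hx 0 m := rfl

theorem hh_sq (m : ℕ) : hh' m ^ 2 = hh' (m + 1) := by
  rw [hh', hh', ← pow_mul, pow_succ]

theorem hx_sq (p m : ℕ) : hx p m ^ 2 = hx p (m + 1) := by
  rw [hx, hx, ← pow_mul, pow_succ]

theorem kk_eq (m : ℕ) : kk m = hh' m * sp 1 (hh' m) := by rw [sp_hh]; rfl

theorem kk_sq (m : ℕ) : kk m ^ 2 = kk (m + 1) := by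
  rw [kk, kk, mul_pow, hx_sq, hx_sq]

theorem Cy_kk (m : ℕ) : Cy 2 (2 ^ (m + 1)) (kk m) := by
  have h := (Cy_h m).prod (Cy_h m)
  rw [← kk_eq, show 2 ^ m + 2 ^ m = 2 ^ (m + 1) by rw [pow_succ]; omega] at h
  exact h

theorem sq1_hh (m : ℕ) : sqC 1 1 (hh' m) = kk m := sq1_h m

theorem zz_eq (m : ℕ) : zz m = kk m * sp 2 (hh' (m + 1)) + hh' (m + 1) * sp 1 (kk m) := by
  rw [zz, kk, map_mul, sp_hx, sp_hx, sp_hh, hh_eq]
  ring

theorem f0 : StF0 := by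
  intro m
  refine ⟨Cy_kk m, h_sq_ne m, ?_, ?_, kk_sq m, sq1_hh m⟩
  · have h1 := (Cy_kk m).prod (Cy_h (m + 1))
    have h2 := (Cy_h (m + 1)).prod (Cy_kk m)
    rw [show 2 ^ (m + 1) + 2 ^ (m + 1) = 2 ^ (m + 2) by rw [pow_succ 2 (m + 1)]; omega] at h1 h2
    rw [zz_eq]
    exact h1.add h2
  · have h1 := (Cy_kk m).prod (Cy_kk m)
    rw [show 2 ^ (m + 1) + 2 ^ (m + 1) = 2 ^ (m + 2) by rw [pow_succ 2 (m + 1)]; omega] at h1
    have h2 : k4 m = kk m * sp 2 (kk m) := by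
      rw [k4, kk, map_mul, sp_hx, sp_hx]
      ring
    rw [h2]
    exact h1

theorem d_sq {r : ℕ} {a : P} (hda : d r a = 0) : d r (a ^ 2) = 0 := by
  have h := d_frob r a
  rw [frob_apply, frob_apply, hda] at h
  rw [h, zero_pow two_ne_zero]

theorem prod_cyc {p q : ℕ} {a b : P} (ha : a ∈ St.C p) (hda : d p a = 0) (hb : b ∈ St.C q)
    (hdb : d q b = 0) : d (p + q) (a * sp p b) = 0 := by
  rw [d_prod ha hb, hda, hdb, zero_mul, map_zero, mul_zero, add_zero]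

theorem prod_mem {p q : ℕ} {a b : P} (ha : a ∈ St.C p) (hb : b ∈ St.C q) :
    a * sp p b ∈ St.C (p + q) := C_mul (C_mono (Nat.le_add_right _ _) ha) (sp_C p hb)

theorem sq1_mul_h {r m : ℕ} {a : P} (ha : a ∈ St.C r) (hda : d r a = 0) :
    sqC 1 (r + 1) (a * sp r (hh' m)) = sqC 1 r a * sp (r + 1) (hh' (m + 1)) + a ^ 2 * sp r (kk m) := by
  have h := cartan1 (q := 1) ha hda (Cy_h m).cyc
  rw [sq1_hh, hh_sq] at h
  exact h

theorem sq1_kk (m : ℕ) : sqC 1 2 (kk m) = zz m := by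
  have h := cartan1 (Cy_h m).mem (Cy_h m).cyc (Cy_h m).cyc
  rw [← kk_eq, sq1_hh, hh_sq] at h
  rw [zz_eq]
  exact h

theorem sq1_mul_kk {r m : ℕ} {a : P} (ha : a ∈ St.C r) (hda : d r a = 0) :
    sqC 1 (r + 2) (a * sp r (kk m)) = sqC 1 r a * sp (r + 1) (kk (m + 1)) + a ^ 2 * sp r (zz m) := by
  have h := cartan1 (q := 2) ha hda (Cy_kk m).cyc
  rw [sq1_kk, kk_sq] at h
  exact h

theorem e_aux (S A B C : P) : S + (A + B + (B + C)) = S + (A + C) := by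
  linear_combination P2 B

theorem f1 : StF1 := by
  intro r m a ha hda
  have m1 : sqC 1 r a ∈ St.C (r + 1) := C_sqC ha
  have d1 : d (r + 1) (sqC 1 r a) = 0 := d_sqC 1 r hda
  have m2 : a ^ 2 ∈ St.C r := C_pow ha 2
  have d2 : d r (a ^ 2) = 0 := d_sq hda
  have y1m : sqC 1 r a * sp (r + 1) (hh' (m + 1)) ∈ St.C (r + 1 + 1) := prod_mem m1 (Cy_h (m + 1)).mem
  have y2m : a ^ 2 * sp r (kk m) ∈ St.C (r + 2) := prod_mem m2 (Cy_kk m).mem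
  have y1d : d (r + 1 + 1) (sqC 1 r a * sp (r + 1) (hh' (m + 1))) = 0 :=
    prod_cyc m1 d1 (Cy_h (m + 1)).mem (Cy_h (m + 1)).cyc
  have y2d : d (r + 2) (a ^ 2 * sp r (kk m)) = 0 := prod_cyc m2 d2 (Cy_kk m).mem (Cy_kk m).cyc
  have hB : sqC 1 (r + 2) (sqC 1 r a * sp (r + 1) (hh' (m + 1)) + a ^ 2 * sp r (kk m))
      + (sqC 1 (r + 2) (sqC 1 r a * sp (r + 1) (hh' (m + 1))) + sqC 1 (r + 2) (a ^ 2 * sp r (kk m)))
      ∈ B (r + 2 + 1) := sqC_add_B (k := 0) (s := r + 2) y1m y1d y2m y2d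
  have s1 : sqC 1 (r + 2) (sqC 1 r a * sp (r + 1) (hh' (m + 1)))
      = sqC 1 (r + 1) (sqC 1 r a) * sp (r + 2) (hh' (m + 2))
        + sqC 1 r a ^ 2 * sp (r + 1) (kk (m + 1)) := sq1_mul_h m1 d1
  have s2 : sqC 1 (r + 2) (a ^ 2 * sp r (kk m))
      = sqC 1 r a ^ 2 * sp (r + 1) (kk (m + 1)) + (a ^ 2) ^ 2 * sp r (zz m) := by
    rw [sq1_mul_kk m2 d2, sqC_sq]
  rw [s1, s2, e_aux] at hB
  have c1 := sq1_mul_h (m := m) ha hda
  rw [sp_hh] at c1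
  rw [c1, show a ^ 4 = (a ^ 2) ^ 2 by ring]
  exact hB

end Pool.Agent.H92ND.Two
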