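import Pool.Agent.H92ND2.Stm

/-!
Part F2: `Sq²` of `Sq¹ (w h_m) = Sq¹ w h_{m+1} + w² h_m h_m`.
-/

set_option autoImplicit false

namespace Pool.Agent.H92ND.Two

open Finset MvPolynomial Pool.Agent.W624.Stz Pool.Agent.Q171.ND3 Pool.Agent.Q171.ND3.St
  Pool.Agent.H92ND

namespace F2aux

theorem sp_hh (q m : ℕ) : sp q (hh' m) = hx q m := by
  rw [hh', map_pow, sp_X, hx]; rfl

theorem sp_hx (q a m : ℕ) : sp q (hx a m) = hx (q + a) m := by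
  rw [hx, map_pow, sp_X, hx]

theorem hx_sq (a m : ℕ) : hx a m ^ 2 = hx a (m + 1) := by
  rw [hx, hx, ← pow_mul, ← pow_succ]

theorem sp_kk (q m : ℕ) : sp q (kk m) = hx q m * hx (q + 1) m := by
  rw [kk, map_mul, sp_hx, sp_hx, add_zero]

theorem sp_zz (q m : ℕ) : sp (q + 1) (zz m) = hx (q + 1) m * hx (q + 2) m * hx (q + 3) (m + 1)
      + hx (q + 1) (m + 1) * hx (q + 2) m * hx (q + 3) m := by
  simp only [zz, map_mul, map_add, sp_hx, add_zero]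

theorem sp_k4 (q m : ℕ) : sp q (k4 m) = hx q m * hx (q + 1) m * hx (q + 2) m * hx (q + 3) m := by
  simp only [k4, map_mul, sp_hx, add_zero]

theorem B_eq {q : ℕ} {x y : P} (h : x = y) (hy : y ∈ B q) : x ∈ B q := h ▸ hy

theorem mul_cyc {p q : ℕ} {a b : P} (ha : a ∈ St.C p) (hda : d p a = 0) (hb : b ∈ St.C q)
    (hdb : d q b = 0) : a * sp p b ∈ St.C (p + q) ∧ d (p + q) (a * sp p b) = 0 := by
  refine ⟨St.C_mul (C_mono (Nat.le_add_right _ _) ha) (sp_C p hb), ?_⟩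
  rw [d_prod ha hb, hda, hdb, zero_mul, map_zero, mul_zero, add_zero]

theorem sq_cyc {q : ℕ} {w : P} (hdw : d q w = 0) : d q (w ^ 2) = 0 := by
  have := d_frob q w
  rw [hdw, map_zero] at this
  exact this

end F2aux

open F2aux

theorem f2_b (hCA : StCA) (hF0 : StF0) (q m : ℕ) (w : P) (hw : w ∈ St.C q) (hdw : d q w = 0) :
    sqC 2 (q + 2) (w ^ 2 * sp q (kk m)) + (sqC 2 q w ^ 2 * sp (q + 2) (kk (m + 1))
      + sqC 1 q w ^ 2 * sp (q + 1) (zz m) + w ^ 4 * sp q (k4 m)) ∈ B (q + 4) := by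
  have hw2 : w ^ 2 ∈ St.C q := C_pow hw 2
  have hdw2 : d q (w ^ 2) = 0 := sq_cyc hdw
  obtain ⟨hk1, -, -, -, -, hk6⟩ := hF0 m
  obtain ⟨hW, hdW⟩ := mul_cyc hw2 hdw2 (Cy_h m).mem (Cy_h m).cyc
  rw [sp_hh] at hW hdW
  have h3 := hCA (q + 1) m (w ^ 2 * hx q m) hW hdW
  have h4 := hCA q m (w ^ 2) hw2 hdw2
  have h5 := mulB_left h4 (Cy_h (m + 1)).mem (Cy_h (m + 1)).cyc
  have h6 : sqC 1 (q + 1) (w ^ 2 * hx q m)
      = sqC 1 q (w ^ 2) * hx (q + 1) (m + 1) + (w ^ 2) ^ 2 * (hx q m * hx (q + 1) m) := by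
    rw [← sp_hh q m, cartan1 hw2 hdw2 (Cy_h m).cyc, hk6, map_pow, sp_hh, sp_hh, hx_sq, sp_kk]
  rw [h6] at h3
  rw [sp_hh] at h5
  rw [sqC_sq, sqC_sq] at h5
  rw [sqC_sq] at h3
  rw [sp_kk, sp_kk, sp_zz, sp_k4]
  have h7 := Submodule.add_mem _ h3 h5
  refine B_eq ?_ h7
  have e1 : w ^ 2 * (hx q m * hx (q + 1) m) = w ^ 2 * hx q m * hx (q + 1) m := by ring
  rw [e1]
  have e2 : q + 1 + 2 = q + 3 := rfl
  have e3 : q + 1 + 1 = q + 2 := rfl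
  have e4 : q + 2 + 1 = q + 3 := rfl
  rw [e2, e3, e4]
  generalize sqC 2 (q + 2) (w ^ 2 * hx q m * hx (q + 1) m) = Z0
  generalize sqC 2 (q + 1) (w ^ 2 * hx q m) = Z1
  generalize sqC 2 q w = Z4
  generalize sqC 1 q w = Z5
  linear_combination (-1 : P) * P2 (Z1 * hx (q + 3) (m + 1))

theorem f2 (hCA : StCA) (hF0 : StF0) : StF2 := by
  intro q m w hw hdw
  have hα : sqC 1 q w ∈ St.C (q + 1) := C_sqC hw
  have hdα : d (q + 1) (sqC 1 q w) = 0 := d_sqC 1 q hdw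
  obtain ⟨hk1, -, -, -, -, hk6⟩ := hF0 m
  obtain ⟨hA, hdA⟩ := mul_cyc hα hdα (Cy_h (m + 1)).mem (Cy_h (m + 1)).cyc
  obtain ⟨hB, hdB⟩ := mul_cyc (C_pow hw 2) (sq_cyc hdw) hk1.mem hk1.cyc
  have h1 := sqC_add_B (k := 1) hA hdA hB hdB
  have h2 := hCA (q + 1) (m + 1) (sqC 1 q w) hα hdα
  have h3 := f2_b hCA hF0 q m w hw hdw
  rw [← sp_hh] at h2
  have h7 := Submodule.add_mem _ (Submodule.add_mem _ h1 h2) h3
  refine B_eq ?_ h7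
  rw [sp_hh _ (m + 2), sp_kk (q + 2) (m + 1)]
  have e2 : q + 1 + 2 = q + 3 := rfl
  have e3 : q + 1 + 1 = q + 2 := rfl
  have e4 : q + 2 + 1 = q + 3 := rfl
  have e5 : 1 + 1 = 2 := rfl
  have e6 : m + 1 + 1 = m + 2 := rfl
  rw [e2, e3, e4, e5, e6]
  generalize sqC 2 (q + 2) (sqC 1 q w * sp (q + 1) (hh' (m + 1)) + w ^ 2 * sp q (kk m)) = Z0
  generalize sqC 2 (q + 2) (sqC 1 q w * sp (q + 1) (hh' (m + 1))) = Z1
  generalize sqC 2 (q + 2) (w ^ 2 * sp q (kk m)) = Z2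
  generalize sqC 2 (q + 1) (sqC 1 q w) = Z3
  generalize sqC 1 (q + 1) (sqC 1 q w) = Z4
  generalize sqC 2 q w = Z5
  generalize sqC 1 q w = Z6
  linear_combination (-1 : P) * P2 (Z1 + Z2)

end Pool.Agent.H92ND.Two
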