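import Pool.Agent.H92ND2.Stm

/-!
# Part SF of the ND crew: separation of products (helper43)
-/

set_option autoImplicit false

namespace Pool.Agent.H92ND.Two

open Finset MvPolynomial Pool.Agent.W624.Stz Pool.Agent.Q171.ND3 Pool.Agent.Q171.ND3.St
  Pool.Agent.H92ND

theorem TT_sum43 {ι : Type} (S : Finset ι) {m : ℕ} {t : ℤ} {f : ι → RR Empty}
    (hf : ∀ k ∈ S, TT (kun : Empty → Kd) m t 0 0 (f k)) :
    TT (kun : Empty → Kd) m t 0 0 (∑ k ∈ S, f k) := by
  classical
  induction S using Finset.induction_on with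
  | empty => rw [sum_empty]; exact TT.zero
  | insert a S ha ih =>
    rw [sum_insert ha]
    exact TT.add (hf a (mem_insert_self _ _)) (ih fun k hk => hf k (mem_insert_of_mem hk))

theorem Cy_smul43 {s t : ℕ} {x : P} (c : ZMod 2) (hx : Cy s t x) : Cy s t (c • x) := by
  have : c = 0 ∨ c = 1 := by revert c; decide
  rcases this with h | h
  · subst h; rw [zero_smul]; exact Cy.zero _ _
  · subst h; rw [one_smul]; exact hx

theorem Cy_sum43 {ι : Type} (S : Finset ι) {s t : ℕ} {f : ι → P}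
    (hf : ∀ k ∈ S, Cy s t (f k)) : Cy s t (∑ k ∈ S, f k) := by
  classical
  induction S using Finset.induction_on with
  | empty => rw [sum_empty]; exact Cy.zero _ _
  | insert a S ha ih =>
    rw [sum_insert ha]
    exact Cy.add (hf a (mem_insert_self _ _)) (ih fun k hk => hf k (mem_insert_of_mem hk))

theorem IsHom_sum43 {ι : Type} (S : Finset ι) {t : ℕ} {f : ι → P}
    (hf : ∀ k ∈ S, IsHom t (f k)) : IsHom t (∑ k ∈ S, f k) := by
  classical
  induction S using Finset.induction_on with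
  | empty => rw [sum_empty]; exact isWeightedHomogeneous_zero _ _ _
  | insert a S ha ih =>
    rw [sum_insert ha]
    exact IsWeightedHomogeneous.add (hf a (mem_insert_self _ _))
      (ih fun k hk => hf k (mem_insert_of_mem hk))

theorem sf : StSF := by
  intro s c
  obtain ⟨r, hr⟩ := mainN s 0 (c : ℤ)
  obtain ⟨R, hR⟩ := exists_tower s
  refine ⟨r + R, fun N hN0 hN => ?_⟩
  obtain ⟨N0, rfl⟩ : ∃ N0, N = 2 ^ r * N0 := dvd_trans (pow_dvd_pow 2 (Nat.le_add_right _ _)) hN
  have hN1 : 2 ^ R ∣ N0 := by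
    rw [pow_add] at hN
    exact Nat.dvd_of_mul_dvd_mul_left (by positivity) hN
  have hN2 : 0 < N0 := Nat.pos_of_mul_pos_left hN0
  obtain ⟨V, hV⟩ := hR N0 hN2 hN1
  have hex := hr N0 V hV r le_rfl Empty 0 (by simp)
  have hU := hV.at0.pw r
  have hNc : ((2 ^ r * N0 : ℕ) : ℤ) = 2 ^ r * (N0 : ℤ) := by push_cast; rfl
  have hspan : ∀ q x, 1 ≤ q → q ≤ s → Cy q (2 ^ r * N0) x →
      ∃ ε : (V.pw r).ι → ZMod 2, (∀ k, (V.pw r).dg k ≠ q → ε k = 0) ∧
      ∃ h, TT (kun : Empty → Kd) (q - 1) ((2 ^ r * N0 : ℕ) : ℤ) 0 0 h ∧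
        jo x = ∑ k, ε k • (V.pw r).el k + dm kun q h := by
    intro q x hq1 hq2 hx
    obtain ⟨ε, h1, h, h2, h3⟩ := hV.span r q hq1 hq2 (jo x) (by rw [← hNc]; exact hx.cc) hx.dk
    exact ⟨ε, h1, h, by rw [hNc]; exact h2, h3⟩
  set U := V.pw r with hUd
  intro ι _ q i x y hk hB q0 i0 hqi0 hind
  have hsp : ∀ k, ∃ ε : U.ι → ZMod 2, (∀ l, U.dg l ≠ q k → ε l = 0) ∧
      ∃ h, TT (kun : Empty → Kd) (q k - 1) ((2 ^ r * N0 : ℕ) : ℤ) 0 0 h ∧
        jo (x k) = ∑ l, ε l • U.el l + dm kun (q k) h := fun k => by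
    obtain ⟨h1, h2, h3, h4, _⟩ := hk k
    exact hspan (q k) (x k) h1 (by omega) h4
  choose E hE h hh he using hsp
  -- the cochain
  have hprod : ∀ k,
      TT (kun : Empty → Kd) s ((2 ^ r * N0 : ℕ) + c) 0 0 (pr Empty (q k - 1) (h k) (jo (y k))) ∧
      Ph Empty U (fun l => E k l • jo (y k)) =
        jo (x k * sp (q k) (y k)) + Q171.ND3.dk s (pr Empty (q k - 1) (h k) (jo (y k))) := by
    intro k
    obtain ⟨hq, hi, hqi, hx, hy⟩ := hk k
    have hEk := hE k
    have hhk := hh k
    have hek := he k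
    generalize E k = ε at hEk hek ⊢
    generalize h k = h at hhk hek ⊢
    generalize x k = x at hx hek ⊢
    generalize y k = y at hy ⊢
    generalize q k = q at hq hqi hx hEk hhk hek ⊢
    generalize i k = i at hi hqi hy
    obtain ⟨q, rfl⟩ : ∃ q', q = q' + 1 := ⟨q - 1, by omega⟩
    have hqi' : q + i = s := by omega
    rw [Nat.add_sub_cancel] at hhk ⊢
    refine ⟨?_, ?_⟩
    · have := TT_pr hhk hy.cc
      rwa [hqi'] at this
    · have h1 : Ph Empty U (fun k => ε k • jo y) = pr Empty (q + 1) (∑ k, ε k • U.el k) (jo y) := by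
        rw [Ph_apply, pr_sum_left]
        refine sum_congr rfl fun k _ => ?_
        by_cases hk : U.dg k = q + 1
        · rw [hk]
          simp only [pr_apply, map_smul]
          rw [smul_mul_assoc]
        · rw [hEk k hk, zero_smul, zero_smul, map_zero, pr_apply, map_zero, zero_mul]
      have h2 : ∑ k, ε k • U.el k = jo x + Q171.ND3.dk q h := by
        have e3 : jo x = ∑ k, ε k • U.el k + Q171.ND3.dk q h := hek
        rw [e3]
        have := p2_add_self (Q171.ND3.dk q h)
        linear_combination (-1 : RR Empty) * this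
      have h3 : Q171.ND3.dk (q + i) (pr Empty q h (jo y)) = pr Empty (q + 1) (Q171.ND3.dk q h) (jo y) := by
        have h4 := dd_pr (kun : Empty → Kd) hhk.cu hy.cc.cu
        have h5 : dd (kun : Empty → Kd) i (jo y) = 0 := hy.dk
        rw [h5, map_zero, add_zero] at h4
        exact h4
      rw [h1, h2, pr_add_left, ← hqi', h3, jo_prod]
  set w : P := ∑ k, x k * sp (q k) (y k) with hw
  have hwh : IsHom (2 ^ r * N0 + c) w := by
    refine IsHom_sum43 _ fun k _ => ?_
    exact (hk k).2.2.2.1.hom.mul (sp_hom (q k) (hk k).2.2.2.2.hom)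
  obtain ⟨g, hg, hdg⟩ := B_to (t := 2 ^ r * N0 + c) (x := w) hwh hB
  rw [Nat.add_sub_cancel] at hg
  set G := g + ∑ k, pr Empty (q k - 1) (h k) (jo (y k)) with hG
  set a : U.ι → RR Empty := fun l => ∑ k, E k l • jo (y k) with ha
  have hPa : Ph Empty U a = Q171.ND3.dk s G := by
    have h1 : Q171.ND3.dk s g = jo w := hdg
    have h2 : a = ∑ k, (fun l => E k l • jo (y k)) := by
      funext l
      rw [ha, Finset.sum_apply]
    rw [h2, map_sum, sum_congr rfl fun k _ => (hprod k).2, sum_add_distrib, hG, map_add, h1, hw,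
      map_sum, map_sum]
  -- one term of `a`
  have hterm : ∀ l k, TT (kun : Empty → Kd) (s + 1 - U.dg l) c 0 0 (E k l • jo (y k)) := by
    intro l k
    obtain ⟨hq, hi, hqi, hx, hy⟩ := hk k
    by_cases hl : U.dg l = q k
    · rw [hl, show s + 1 - q k = i k by omega]
      exact TT_smul _ hy.cc
    · rw [hE k l hl, zero_smul]
      exact TT.zero
  have hS : SC (kun : Empty → Kd) U s (2 ^ r * (N0 : ℤ)) c 0 0 (G, a) := by
    refine SC.mk' ?_ ?_ ?_
    · have h1 : TT (kun : Empty → Kd) s ((2 ^ r * N0 : ℕ) + c) 0 0 G := by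
        refine TT.add ?_ (TT_sum43 _ fun k _ => (hprod k).1)
        have := hg
        push_cast at this ⊢
        exact this
      rw [hNc] at h1
      exact h1
    · intro l _
      exact TT_sum43 _ fun k _ => hterm l k
    · intro l hl
      change ∑ k, E k l • jo (y k) = 0
      refine sum_eq_zero fun k _ => ?_
      have := hk k
      rw [hE k l (by omega), zero_smul]
  obtain ⟨H, hH, hHe⟩ := hex _ hS (by
    refine Prod.ext ?_ (funext fun l => ?_)
    · rw [cd_fst]
      change Q171.ND3.dk s G + Ph Empty U a = 0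
      rw [hPa]
      exact p2_add_self _
    · rw [cd_snd]
      change Q171.ND3.dk (s + 1 - U.dg l) (∑ k, E k l • jo (y k)) = 0
      rw [map_sum]
      refine sum_eq_zero fun k _ => ?_
      rw [map_smul]
      obtain ⟨hq, hi, hqi, hx, hy⟩ := hk k
      by_cases hl : U.dg l = q k
      · rw [hl, show s + 1 - q k = i k by omega, hy.dk, smul_zero]
      · rw [hE k l hl, zero_smul])
  -- conclusion
  intro k0 hk0
  obtain ⟨hq, hi, hqi, hx, hy⟩ := hk k0
  obtain ⟨s, rfl⟩ : ∃ s', s = s' + 1 := ⟨s - 1, by omega⟩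
  have hHk : ∀ l, Q171.ND3.dk (s + 1 - U.dg l) (H.2 l) = ∑ k, E k l • jo (y k) := fun l =>
    congrFun (congrArg Prod.snd hHe) l
  have hi0 : 1 ≤ i0 := by omega
  have hEz : ∀ l, E k0 l = 0 := by
    intro l
    by_cases hl : U.dg l = q k0
    · have hz : (fun k => E k l) = 0 := by
        refine hind (fun k => E k l) (fun k hk1 => hE k l (by omega)) ?_
        have h2 := hHk l
        have h3 := hH.t1 l (by omega)
        rw [hl, show s + 1 - 1 + 1 - q k0 = i0 - 1 by omega] at h3
        rw [hl] at h2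
        obtain ⟨i1, rfl⟩ : ∃ j, i0 = j + 1 := ⟨i0 - 1, by omega⟩
        rw [show s + 1 - q k0 = i1 by omega] at h2
        have h4 : jo (∑ k, E k l • y k) = ∑ k, E k l • jo (y k) := by
          rw [map_sum]
          exact sum_congr rfl fun k _ => map_smul _ _ _
        refine B_of (t := c) (s := i1 + 1) h3 ?_
        rw [h4]
        exact h2
      exact congrFun hz k0
    · exact hE k0 l hl
  rw [← hk0]
  refine B_of (hh k0) ?_
  rw [he k0]
  simp only [hEz, zero_smul, sum_const_zero, zero_add]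

end Pool.Agent.H92ND.Two
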