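import Pool.Agent.H92ND2.Ca
import Pool.Agent.H92ND2.Sf
import Pool.Agent.H92ND2.Bs
import Pool.Agent.H92ND2.Dc
import Pool.Agent.H92ND2.F01
import Pool.Agent.H92ND2.F2
import Pool.Agent.H92ND2.E2
import Pool.Agent.H92ND2.Eu
import Pool.Agent.H92ND2.Dn
import Pool.Agent.H92ND2.Cn

/-!
The final theorem: survival to the `E₄`-page.
-/

set_option autoImplicit false

namespace Pool.Agent.H92ND.Two

open Finset MvPolynomial Pool.Agent.W624.Stz Pool.Agent.Q171.ND3 Pool.Agent.Q171.ND3.St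
  Pool.Agent.H92ND

theorem f2' : StF2 := f2 ca f0
theorem e2' : StE2 := e2 ca sf dc1 f0 f1
theorem eu' : StEU := eu sf bs dc2 f0 f2'
theorem cn' : StCN := cn e2' eu' dn

/-- nonzero late classes with `Sq¹ y = 0` outside the exceptional degrees -/
theorem alt {q m0 : ℕ} (hq : 1 ≤ q) (hG : ∀ i, 1 ≤ i → i ≤ q + 4 → Good m0 i)
    {i t : ℕ} (hi : m0 + 1 ≤ i) (hX : ¬ ExU q (2 ^ m0 * t))
    {y : P} (hy : Cy (q + 2) (2 ^ i * t) y) (hyB : y ∉ B (q + 2))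
    (h1 : sqC 1 (q + 2) y ∈ B (q + 3)) :
    ∃ x, Cy (q + 1) (2 ^ (i - 1) * t) x ∧ y + sqC 1 (q + 1) x ∈ B (q + 2) ∧
      ∀ j, (sqC 2 (q + 2) y) ^ 2 ^ j ∉ B (q + 4) := by
  obtain ⟨k, rfl⟩ := Nat.exists_eq_add_of_le hi
  have h2 : ¬ ExU q (2 ^ (m0 + 1 + k) * t) := by
    intro h
    rw [show 2 ^ (m0 + 1 + k) * t = 2 ^ (1 + k) * (2 ^ m0 * t) by ring] at h
    exact hX ((dn q m0 hq hG (2 ^ m0 * t) (1 + k) (dvd_mul_right _ _)).2.2 h)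
  by_contra hcon
  apply h2
  refine ⟨y, hy, hyB, h1, ?_⟩
  rintro ⟨t', x, ht', hx, hyx, hs2⟩
  apply hcon
  have e : t' = 2 ^ (m0 + 1 + k - 1) * t := by
    have h3 : 2 ^ (m0 + 1 + k) * t = 2 * (2 ^ (m0 + 1 + k - 1) * t) := by
      rw [show m0 + 1 + k = (m0 + 1 + k - 1) + 1 by omega, pow_succ, Nat.add_sub_cancel]; ring
    omega
  refine ⟨x, e ▸ hx, hyx, fun j hj => hs2 ?_⟩
  refine (hG (q + 4) (by omega) le_rfl).inj (N := 2 * (2 ^ (m0 + 1 + k) * t)) ?_ (Cy.sqk2 hy) j hj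
  exact Dvd.dvd.mul_left (Dvd.dvd.mul_right (pow_dvd_pow 2 (by omega)) _) _

/-- the main theorem for survival to the `E₄`-page -/
theorem main3 (r : ℕ) (hr : 3 ≤ r) : ∃ (J C : ℕ) (X : Set ℕ),
    (∀ n, (n - C) ^ r ≤
      C * {t | Odd t ∧ t < 2 ^ n ∧ ∃ y, IsDeg (r + 1) (2 ^ J * t) y ∧ y ≠ 0}.ncard) ∧
    (∀ n, {t | t ∈ X ∧ t < 2 ^ n}.ncard ≤ C * (n + 1) ^ (r - 2)) ∧
    (∀ i t : ℕ, J ≤ i → Odd t → t ∉ X → ∀ y : Cocycle (r + 1), IsHom (2 ^ i * t) y.val →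
      y.cls ≠ 0 → hmul 0 (r + 2) (y.Sq 1).cls ≠ 0 ∨
        ∃ x : Cocycle r, IsHom (2 ^ (i - 1) * t) x.val ∧ y.cls = (x.Sq 1).cls ∧
          ∀ j, fam (r + 3) j (y.Sq 2).cls ≠ 0) ∧
    ∀ (D : Diffs) (a t : ℕ), Odd t → t ∉ X → ∀ x : Ext (r + 1), IsDeg (r + 1) (2 ^ a * t) x →
      ∀ j, J ≤ j → D.Survives₄ (r + 1) (fam (r + 1) j x) → fam (r + 1) j x = 0 := by
  obtain ⟨q, rfl⟩ : ∃ q, r = q + 1 := ⟨r - 1, by omega⟩
  have hq : 2 ≤ q := by omega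
  obtain ⟨m1, h1⟩ : ∃ m0, ∀ m, m0 ≤ m → ∀ i, 1 ≤ i → i ≤ q + 4 → Good m i := exists_good' _
  obtain ⟨r0, hr0⟩ := h0_inj' (q + 2)
  obtain ⟨J3, hJ3⟩ := third (q + 1)
  set m0 := m1 + r0 + 1 with hm0
  have hG : ∀ i, 1 ≤ i → i ≤ q + 4 → Good m0 i := h1 m0 (by omega)
  set J := m0 + 1 + J3 + 1 with hJ
  have hGJ : ∀ i, 1 ≤ i → i ≤ q + 2 → Good J i := fun i hi hi2 => h1 J (by omega) i hi (by omega)
  obtain ⟨C2, hC2⟩ := cn' q m0 hq (by omega) hG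
  obtain ⟨a, _, hlow⟩ := lower (q + 2) J hGJ (q + 2) (by omega) le_rfl
  set C := (a + (q + 2)) + (q + 2 - 1).factorial + C2 with hC
  have hh : ∀ N, 2 ^ m0 ∣ N → ∀ z, Cy (q + 3) N z →
      z ^ 2 * X (q + 3, 0) ∈ B (q + 4) → z ∈ B (q + 3) := fun N hN =>
    hr0 N (dvd_trans (pow_dvd_pow 2 (by omega)) hN)
  have hset : ∀ n, {t | Odd t ∧ t < 2 ^ n ∧ ∃ y, IsDeg (q + 2) (2 ^ J * t) y ∧ y ≠ 0}
      = ((OD (fun t => Nz (q + 2) (2 ^ J * t)) n : Finset ℕ) : Set ℕ) := by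
    intro n
    ext t
    rw [mem_coe, mem_OD, Set.mem_ofPred_eq]
    constructor
    · rintro ⟨h1, h2, y, hy, hy0⟩
      exact ⟨h2, h1, ext_nz hy hy0⟩
    · rintro ⟨h1, h2, h3⟩
      obtain ⟨y, hy, hy0⟩ := nz_ext h3
      exact ⟨h2, h1, y, hy, hy0⟩
  -- `h₀ Sq¹ y = 0` implies `Sq¹ y = 0`
  have hker : ∀ i t : ℕ, m0 + 1 ≤ i → ∀ y, Cy (q + 2) (2 ^ i * t) y →
      sqC 1 (q + 2) y * X (q + 3, 0) ∈ B (q + 4) → sqC 1 (q + 2) y ∈ B (q + 3) := by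
    intro i t hi y hy h0
    obtain ⟨k, rfl⟩ := Nat.exists_eq_add_of_le hi
    refine h0sq1 (s := q + 2) (N := 2 ^ (m0 + k) * t) (hG (q + 2) (by omega) (by omega)) hh
      (Dvd.dvd.mul_right (pow_dvd_pow 2 (by omega)) _) ?_ h0
    rwa [show 2 * (2 ^ (m0 + k) * t) = 2 ^ (m0 + 1 + k) * t by ring]
  refine ⟨J, C, {t | Odd t ∧ ExU q (2 ^ m0 * t)}, ?_, ?_, ?_, ?_⟩
  · intro n
    rw [show q + 1 + 1 = q + 2 by ring, hset, Set.ncard_coe_finset]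
    have h2 := pow_bound (n := n) (s := q + 2) (by omega) (hlow n)
    calc (n - C) ^ (q + 1) ≤ (n - (a + (q + 2))) ^ (q + 2 - 1) := Nat.pow_le_pow_left (by omega) _
      _ ≤ (q + 2 - 1).factorial * (OD (fun t => Nz (q + 2) (2 ^ J * t)) n).card := h2
      _ ≤ C * (OD (fun t => Nz (q + 2) (2 ^ J * t)) n).card := Nat.mul_le_mul_right _ (by omega)
  · intro n
    have e : {t | t ∈ {t | Odd t ∧ ExU q (2 ^ m0 * t)} ∧ t < 2 ^ n}
        = ((OD (fun t => ExU q (2 ^ m0 * t)) n : Finset ℕ) : Set ℕ) := by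
      ext t
      rw [mem_coe, mem_OD, Set.mem_ofPred_eq, Set.mem_ofPred_eq]
      tauto
    rw [e, Set.ncard_coe_finset]
    exact (hC2 n).trans (Nat.mul_le_mul_right _ (by omega))
  · intro i t hi ht hX y hy hy0
    have hyc : Cy (q + 2) (2 ^ i * t) y.val := ⟨y.mem, hy, y.closed⟩
    have hyB : y.val ∉ B (q + 2) := fun h => hy0 (cl_eq_zero.mpr h)
    by_cases h0 : hmul 0 (q + 1 + 2) (y.Sq 1).cls = 0
    · right
      have hz : sqC 1 (q + 2) y.val ∈ Z (q + 3) := (hyc.sq1.co.toZ).2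
      have h3 : hmul 0 (q + 1 + 2) (y.Sq 1).cls
        = cl ⟨mulh 0 (q + 3) (sqC 1 (q + 2) y.val), mulh_Z _ hz⟩ := rfl
      rw [h3, cl_eq_zero] at h0
      have h4 : sqC 1 (q + 2) y.val * X (q + 3, 0) ∈ B (q + 4) := by
        have h5 : mulh 0 (q + 3) (sqC 1 (q + 2) y.val) ∈ B (q + 4) := h0
        rwa [mulh_apply, pow_zero, pow_one] at h5
      have h6 := hker i t (by omega) y.val hyc h4
      obtain ⟨x, hx, hyx, hs2⟩ := alt (by omega) hG (by omega : m0 + 1 ≤ i)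
        (fun h => hX ⟨ht, h⟩) hyc hyB h6
      refine ⟨hx.co, hx.hom, ?_, fun j hj => ?_⟩
      · exact (cls_eq hyc hx.sq1).mpr hyx
      · have h7 : (y.Sq 2).cls = (Cy.sqk2 hyc).co.cls := rfl
        rw [h7, fam_cls] at hj
        exact hs2 j ((cls_zero _).mp hj)
    · exact Or.inl h0
  · intro D a' t ht hX x hx j hj hsv
    obtain ⟨k, rfl⟩ : ∃ k, j = (J3 + 1) + k := ⟨j - (J3 + 1), by omega⟩
    have hk : m0 + 1 ≤ k := by omega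
    obtain ⟨y, hy0, hyz⟩ := isDeg_cy.mp (fam_deg hx k)
    have hy : Cy (q + 2) (2 ^ (k + a') * t) y := by
      have h := hy0
      rwa [show 2 ^ k * (2 ^ a' * t) = 2 ^ (k + a') * t by rw [pow_add]; ring] at h
    have hsplit : fam (q + 2) (J3 + 1 + k) x = fam (q + 2) (J3 + 1) hy.co.cls := by
      have h : hy.co.cls = fam (q + 2) k x := hyz
      rw [h]
      exact Function.iterate_add_apply _ _ _ _
    have hsv' : D.Survives₄ (q + 2) (fam (q + 2) (J3 + 1) hy.co.cls) := by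
      rw [← hsplit]; exact hsv
    change fam (q + 2) (J3 + 1 + k) x = 0
    rw [hsplit]
    by_cases hyB : y ∈ B (q + 2)
    · rw [fam_cls]
      exact (cls_zero _).mpr (B_pow2 hyB _)
    exfalso
    have hGd : 2 ^ m0 ∣ 2 ^ (k + a') * t := Dvd.dvd.mul_right (pow_dvd_pow 2 (by omega)) _
    by_cases h1 : sqC 1 (q + 2) y ∈ B (q + 3)
    · obtain ⟨x', hx', hyx, hs2⟩ := alt (by omega) hG (by omega : m0 + 1 ≤ k + a')
        (fun h => hX ⟨ht, h⟩) hy hyB h1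
      have h2 : hy.co.cls = (hx'.co.Sq 1).cls := (cls_eq hy hx'.sq1).mpr hyx
      rw [h2] at hsv'
      have h3 := ((hJ3 D _ hx'.co hx'.hom (J3 + 1) (by omega)).2).mp hsv'
      have h4 : ((hx'.co.Sq 1).Sq 2).cls = (Cy.sqk2 hx'.sq1).co.cls := rfl
      rw [h4, fam_cls] at h3
      have h5 := (cls_zero _).mp h3
      have h6 : sqC 2 (q + 2) y + sqC 2 (q + 2) (sqC 1 (q + 1) x') ∈ B (q + 4) :=
        sqC_congr (k := 1) hy.mem hy.cyc hx'.sq1.mem hx'.sq1.cyc hyx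
      apply hs2 J3
      have h7 := B_pow2 h6 J3
      rw [add_pow_char_pow] at h7
      exact B_cancel h7 h5
    · have h2 : fam (q + 2) (J3 + 1) hy.co.cls = sq0 (q + 2) (hy.pow2 J3).co.cls := by
        rw [← fam_cls]
        exact Function.iterate_succ_apply' _ _ _
      have h3 := hsv'.1
      rw [h2, D.bruner₂ (q + 2) (2 ^ J3 * (2 ^ (k + a') * t)) (hy.pow2 J3).co (by
        obtain ⟨l, hl⟩ : ∃ l, k + a' = l + 1 := ⟨k + a' - 1, by omega⟩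
        rw [hl, pow_succ']
        exact ⟨2 ^ J3 * (2 ^ l * t), by ring⟩) (hy.pow2 J3).hom] at h3
      have hz : sqC 1 (q + 2) (y ^ 2 ^ J3) ∈ Z (q + 3) := ((hy.pow2 J3).sq1.co.toZ).2
      have h4 : hmul 0 (q + 2 + 1) ((hy.pow2 J3).co.Sq 1).cls
        = cl ⟨mulh 0 (q + 3) (sqC 1 (q + 2) (y ^ 2 ^ J3)), mulh_Z _ hz⟩ := rfl
      rw [h4, cl_eq_zero] at h3
      have h5 : sqC 1 (q + 2) (y ^ 2 ^ J3) * X (q + 3, 0) ∈ B (q + 4) := by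
        have h6 : mulh 0 (q + 3) (sqC 1 (q + 2) (y ^ 2 ^ J3)) ∈ B (q + 4) := h3
        rwa [mulh_apply, pow_zero, pow_one] at h6
      have h6 := hker (J3 + (k + a')) t (by omega) (y ^ 2 ^ J3) (by
        have := hy.pow2 J3
        rwa [← mul_assoc, ← pow_add] at this) h5
      rw [sq1_pow2] at h6
      exact h1 ((hG (q + 3) (by omega) (by omega)).inj (Dvd.dvd.mul_left hGd 2) hy.sq1 J3 h6)

end Pool.Agent.H92ND.Two
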