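import Pool.Agent.H92ND.Y

/-!
# Interface of the `E₄` theorem (MP_701abf_gt): exact statements of the parts

Everything lives in the polynomial ring `P = 𝔽₂[X (a, n)]`, slot `a`, `X (a, 0) = ξ₁` in the slot `a`.
`C s`: cochains of degree `s` (polynomials in the slots `< s`), `d s`: differential, `B s`: coboundaries,
`face j`: the coface `δ^j`, `faces A`: the composite of the cofaces with numbers in `A` (smallest first),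
`sqC k s x`: cochain formula for `Sq^k x` (library, `Q171/ND3/Def.lean`), `sp m`: shift of the slots by
`m`, `Cy s t x`: `x` is a homogeneous cocycle of degree `s` and internal degree `t` (`H92ND/K.lean`),
`Nz s t`: there is one which is not in `B s`; `Good m0 q`: `Sq⁰` is injective and surjective on classes of
degree `q` in internal degrees divisible by `2 ^ m0` (`H92ND/M.lean`); `T2 N k l F`: the sum of
`F (ev0 W) (ev1 W)` over the `W ⊆ range N` with `|ev0 W| = k`, `|ev1 W| = l` (`H92ND/W.lean`).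

Useful: `cartan1` (`H92ND/L.lean`), `sqC_add_B`, `sqC_congr`, `sqC_B`, `cmb2`, `reidx2`, `sum_faces'`,
`d_cp`, `faces_single`, `faces_insert` (`H92ND/W.lean`, `ND3/Br.lean`), `face_of_C` (`ND3/Op.lean`),
`mulB_left`, `mulB_right`, `Cy.prod` (`H92ND/M.lean`), `B_pow2`, `B_cancel` (`H92ND/Y.lean`), `P2 x : x + x = 0`.
-/

set_option autoImplicit false

namespace Pool.Agent.H92ND.Two

open Finset MvPolynomial Pool.Agent.W624.Stz Pool.Agent.Q171.ND3 Pool.Agent.Q171.ND3.St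
  Pool.Agent.H92ND

/-- `ξ₁ ^ (2 ^ m)` in the slot `a`, the cocycle `h_m` -/
noncomputable def hx (a m : ℕ) : P := X (a, 0) ^ 2 ^ m

/-- the sum of the odd faces with numbers at most `p` -/
noncomputable def al (p : ℕ) (a : P) : P :=
  ∑ u ∈ (range (p + 1)).filter (fun u => ¬ Even u), face u a

/-- the coefficient of `h_{p+1} h_{p+2}` -/
noncomputable def T3 (p : ℕ) (a : P) : P :=
  T2 (p + 2) 1 2 (fun A B => faces A a * faces B a) + T2 (p + 2) 2 1 (fun A B => faces A a * faces B a)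

/-- the coefficient of `a h_p h_{p+2}` -/
noncomputable def R2 (p : ℕ) (a : P) : P :=
  T2 (p + 1) 2 0 (fun A _ => faces A a) + T2 (p + 1) 0 2 (fun _ B => faces B a)

/-- PART CA1 -/
def StCA1 : Prop := ∀ (p m : ℕ) (a : P), a ∈ St.C p →
  sqC 2 (p + 1) (a * hx p m) = sqC 2 p a * hx (p + 2) m ^ 2
    + T3 p a * (hx (p + 1) m * hx (p + 2) m) + R2 p a * a * (hx p m * hx (p + 2) m)

/-- PART CA2 -/
def StCA2 : Prop := ∀ (p : ℕ) (a : P), a ∈ St.C p → d p a = 0 →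
  T3 p a = sqC 1 p a + ∑ w ∈ range (p + 2), face w a * face w (al p a)

/-- PART CA3 -/
def StCA3 : Prop := ∀ (p : ℕ) (a : P), a ∈ St.C p → d p a = 0 →
  R2 p a = face (p + 1) (al p a) + al p a

/-- PART CA4 -/
def StCA4 : Prop := ∀ (p m : ℕ) (a : P), a ∈ St.C p →
  d (p + 2) (a * al p a * (hx p m * hx (p + 1) m))
    = (∑ w ∈ range (p + 2), face w a * face w (al p a)) * (hx (p + 1) m * hx (p + 2) m)
      + (face (p + 1) (al p a) + al p a) * a * (hx p m * hx (p + 2) m)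

/-- the Cartan formula for `Sq²`, from CA1 to CA4 -/
def StCA : Prop := ∀ (p m : ℕ) (a : P), a ∈ St.C p → d p a = 0 →
  sqC 2 (p + 1) (a * hx p m)
    + (sqC 2 p a * hx (p + 2) (m + 1) + sqC 1 p a * (hx (p + 1) m * hx (p + 2) m)) ∈ B (p + 3)

/-- PART SF: separation of products -/
def StSF : Prop := ∀ s c : ℕ, ∃ K : ℕ, ∀ N, 0 < N → 2 ^ K ∣ N →
  ∀ (ι : Type) [Fintype ι] (q i : ι → ℕ) (x y : ι → P),
    (∀ k, 1 ≤ q k ∧ 1 ≤ i k ∧ q k + i k = s + 1 ∧ Cy (q k) N (x k) ∧ Cy (i k) c (y k)) →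
    ∑ k, x k * sp (q k) (y k) ∈ B (s + 1) → ∀ q0 i0, q0 + i0 = s + 1 →
    (∀ ε : ι → ZMod 2, (∀ k, q k ≠ q0 → ε k = 0) → ∑ k, ε k • y k ∈ B i0 → ε = 0) →
    ∀ k, q k = q0 → x k ∈ B q0

/-- PART BS: bases -/
def StBS : Prop := ∀ q c : ℕ,
  (∃ (n : ℕ) (b : Fin n → P), (∀ j, Cy q c (b j)) ∧
    (∀ y, Cy q c y → ∃ ε : Fin n → ZMod 2, y + ∑ j, ε j • b j ∈ B q) ∧
    ∀ ε : Fin n → ZMod 2, ∑ j, ε j • b j ∈ B q → ε = 0) ∧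
  ∀ v, Cy q c v → v ∉ B q → ∃ (n : ℕ) (b : Fin (n + 1) → P), b 0 = v ∧ (∀ j, Cy q c (b j)) ∧
    (∀ y, Cy q c y → ∃ ε : Fin (n + 1) → ZMod 2, y + ∑ j, ε j • b j ∈ B q) ∧
    ∀ ε : Fin (n + 1) → ZMod 2, ∑ j, ε j • b j ∈ B q → ε = 0

/-- PART DC, first half: decomposition if there are no terms with `i ≥ 2` -/
def StDC1 : Prop := ∀ r c : ℕ, 1 ≤ r → 0 < c → ∀ e : P, Cy 1 c e → (∀ y, Cy 1 c y → y = 0 ∨ y = e) →
  ∃ K : ℕ, ∀ N, 0 < N → 2 ^ K ∣ N →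
    (∀ i, 2 ≤ i → i + 1 ≤ r + 1 → ¬ (Nz i c ∧ Nz (r + 1 - i) N)) →
    ∀ x, Cy (r + 1) (N + c) x → ∃ a, Cy r N a ∧ x + a * sp r e ∈ B (r + 1)

/-- PART DC, second half: decomposition if there are no terms with `i ≥ 3` -/
def StDC2 : Prop := ∀ q c : ℕ, 1 ≤ q → 0 < c → ∀ e : P, Cy 1 c e → (∀ y, Cy 1 c y → y = 0 ∨ y = e) →
  ∀ (n : ℕ) (b : Fin n → P), (∀ j, Cy 2 c (b j)) →
    (∀ y, Cy 2 c y → ∃ ε : Fin n → ZMod 2, y + ∑ j, ε j • b j ∈ B 2) →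
  ∃ K : ℕ, ∀ N, 0 < N → 2 ^ K ∣ N →
    (∀ i, 3 ≤ i → i + 1 ≤ q + 2 → ¬ (Nz i c ∧ Nz (q + 2 - i) N)) →
    ∀ x, Cy (q + 2) (N + c) x → ∃ (a : P) (g : Fin n → P), Cy (q + 1) N a ∧ (∀ j, Cy q N (g j)) ∧
      x + (a * sp (q + 1) e + ∑ j, g j * sp q (b j)) ∈ B (q + 2)

/-- `h_m h_m` -/
noncomputable def kk (m : ℕ) : P := hx 0 m * hx 1 m

/-- `h_m h_m h_{m+1} + h_{m+1} h_m h_m` -/
noncomputable def zz (m : ℕ) : P := hx 0 m * hx 1 m * hx 2 (m + 1) + hx 0 (m + 1) * hx 1 m * hx 2 m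

/-- `h_m h_m h_m h_m` -/
noncomputable def k4 (m : ℕ) : P := hx 0 m * hx 1 m * hx 2 m * hx 3 m

/-- PART F, first third: the cocycles -/
def StF0 : Prop := ∀ m : ℕ, Cy 2 (2 ^ (m + 1)) (kk m) ∧ kk m ∉ B 2 ∧ Cy 3 (2 ^ (m + 2)) (zz m) ∧
  Cy 4 (2 ^ (m + 2)) (k4 m) ∧ kk m ^ 2 = kk (m + 1) ∧ sqC 1 1 (hh' m) = kk m

/-- PART F, second third: `Sq¹ Sq¹ (a h_m)` -/
def StF1 : Prop := ∀ (r m : ℕ) (a : P), a ∈ St.C r → d r a = 0 →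
  sqC 1 (r + 2) (sqC 1 (r + 1) (a * hx r m))
    + (sqC 1 (r + 1) (sqC 1 r a) * sp (r + 2) (hh' (m + 2)) + a ^ 4 * sp r (zz m)) ∈ B (r + 3)

/-- PART F, last third: `Sq² (Sq¹ w h_{m+1} + w² h_m h_m)` -/
def StF2 : Prop := ∀ (q m : ℕ) (w : P), w ∈ St.C q → d q w = 0 →
  sqC 2 (q + 2) (sqC 1 q w * sp (q + 1) (hh' (m + 1)) + w ^ 2 * sp q (kk m))
    + (sqC 2 (q + 1) (sqC 1 q w) * sp (q + 3) (hh' (m + 2))
      + (sqC 1 (q + 1) (sqC 1 q w) + sqC 2 q w ^ 2) * sp (q + 2) (kk (m + 1))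
      + sqC 1 q w ^ 2 * sp (q + 1) (zz m) + w ^ 4 * sp q (k4 m)) ∈ B (q + 4)

/-- a nonzero class with `Sq¹ = 0` -/
def Ex1 (q t : ℕ) : Prop := ∃ u, Cy q t u ∧ u ∉ B q ∧ sqC 1 q u ∈ B (q + 1)

/-- a nonzero class `w` with `Sq¹ Sq¹ w = (Sq² w)²` -/
def Ex2 (q t : ℕ) : Prop := ∃ w, Cy q t w ∧ w ∉ B q ∧
  sqC 1 (q + 1) (sqC 1 q w) + sqC 2 q w ^ 2 ∈ B (q + 2)

/-- a nonzero class `y` of degree `q + 2` with `Sq¹ y = 0` which is not of the form `Sq¹ x` with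
`Sq² y ≠ 0` -/
def ExU (q t : ℕ) : Prop := ∃ y, Cy (q + 2) t y ∧ y ∉ B (q + 2) ∧ sqC 1 (q + 2) y ∈ B (q + 3) ∧
  ¬ ∃ t' x, 2 * t' = t ∧ Cy (q + 1) t' x ∧ y + sqC 1 (q + 1) x ∈ B (q + 2) ∧
    sqC 2 (q + 2) y ∉ B (q + 4)

/-- PART E2: recursion for `Ex2` -/
def StE2 : Prop := ∀ r m0 : ℕ, 1 ≤ r → (∀ i, 1 ≤ i → i ≤ r + 3 → Good m0 i) → ∃ K : ℕ → ℕ, ∀ c N,
  Odd c → 0 < N → 2 ^ K c ∣ N → Ex2 (r + 1) (2 ^ m0 * (c + N)) →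
    (∃ i, 2 ≤ i ∧ i + 1 ≤ r + 1 ∧ Nz i (2 ^ m0 * c) ∧ Nz (r + 1 - i) (2 ^ m0 * N)) ∨
      Ex1 r (2 ^ m0 * N)

/-- PART EU: recursion for `ExU` -/
def StEU : Prop := ∀ q m0 : ℕ, 1 ≤ q → 1 ≤ m0 → (∀ i, 1 ≤ i → i ≤ q + 4 → Good m0 i) →
  ∃ K : ℕ → ℕ, ∀ c N, Odd c → 0 < N → 2 ^ K c ∣ N → ExU q (2 ^ m0 * (c + N)) →
    (∃ i, 3 ≤ i ∧ i + 1 ≤ q + 2 ∧ Nz i (2 ^ m0 * c) ∧ Nz (q + 2 - i) (2 ^ m0 * N)) ∨
      Ex1 q (2 ^ m0 * N) ∨ Ex2 q (2 ^ m0 * N)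

/-- PART CN: counting -/
def StCN : Prop := ∀ q m0 : ℕ, 2 ≤ q → 1 ≤ m0 → (∀ i, 1 ≤ i → i ≤ q + 4 → Good m0 i) →
  ∃ C, ∀ n, (OD (fun t => ExU q (2 ^ m0 * t)) n).card ≤ C * (n + 1) ^ (q - 1)

/-- PART DN: the exceptional classes descend along `Sq⁰` -/
def StDN : Prop := ∀ q m0 : ℕ, 1 ≤ q → (∀ i, 1 ≤ i → i ≤ q + 4 → Good m0 i) → ∀ N k, 2 ^ m0 ∣ N →
  (Ex1 q (2 ^ k * N) → Ex1 q N) ∧ (Ex2 q (2 ^ k * N) → Ex2 q N) ∧ (ExU q (2 ^ k * N) → ExU q N)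

end Pool.Agent.H92ND.Two
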